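import Pool.Agent.Lib.TVP.Core4
import Pool.Agent.Lib.TV.Blue
import Pool.Agent.Lib.TV19.TS

set_option autoImplicit false
set_option linter.unusedVariables false

namespace Pool.Agent.Lib.TVP

open Pool.Agent.Lib.MP_3ecc11_lc Pool.Agent.Lib.TV19 Pool.Agent.Lib.TV Finset Classical
open Pool.Agent.Lib.TV19.Sys

variable {S : Sys} {d : ℤ → ℤ → ℕ} {z : ℤ → ℤ}

/-- facts on a left type P-link -/
structure PG (S : Sys) (d : ℤ → ℤ → ℕ) (z : ℤ → ℤ) (x : Lnk) : Prop where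
  lk : S.IsLink x
  kt : S.Key x.t
  kw : S.Key (S.w x)
  ke : S.Key (S.e x)
  tw : Anc S.a S.b x.t (S.w x)
  ntw : x.t ≠ S.w x
  we : Anc S.a S.b (S.w x) (S.e x)
  te : Anc S.a S.b x.t (S.e x)
  nte : S.e x ≠ x.t
  o : x.lo ≤ S.w x ∧ S.w x < x.m ∧ x.m ≤ S.e x ∧ S.e x ≤ x.hi ∧ x.m ≤ S.g x ∧ S.g x < x.hi ∧
    (S.e x = S.g x ∨ S.e x = S.g x + 1) ∧ S.a (S.e x) < x.m ∧ x.hi < S.b (S.e x) ∧
    S.a (S.w x) < x.lo ∧ x.hi < S.b (S.w x)
  it : S.g x = S.item x.m x.hi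
  pos : 0 < d x.t (S.w x)
  kb : d x.t (S.w x) < d x.t (S.e x)
  zw : S.w x < z x.t

theorem pg (H : Hier S.L S.R S.a S.b d z) {x : Lnk} (h : S.PLink d x) (l : S.w x < x.m) :
    PG S d z x := by
  obtain ⟨lk, ne, lt⟩ := h
  obtain ⟨kt, -⟩ := lk.basic
  obtain ⟨kw, b1, b2, b3, b4, b5, b6⟩ := lk.geoW
  obtain ⟨ke, c1, c2, c3, c4⟩ := lk.geo ne
  have te := kt.trans b5 c1
  have z2 := H.z2 _ _ _ kt.1 kt.2 b5 b6.symm c1 c2.symm lt
  have u1 := H.d1 _ _ _ kw.1 kw.2 kt.1 kt.2 ke.1 ke.2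
  have u2 := H.sym _ _ kw.1 kw.2 kt.1 kt.2
  have u3 := H.d0 _ _ kt.1 kt.2 kw.1 kw.2
  rcases c4 with c4 | c4
  swap
  · omega
  refine ⟨lk, kt, kw, ke, b5, b6, c1, te, fun e => b6 (kt.antisymm b5 (e ▸ c1)), by omega,
    c4.2.2.2.2.2.2.2, ?_, by omega, ?_⟩
  · by_contra q
    exact b6 (u3.1 (by omega))
  · rw [z2.1]
    exact z2.2.1 (by omega)

/-- the hole of the window of a link -/
structure HL (S : Sys) (d : ℤ → ℤ → ℕ) (z : ℤ → ℤ) (x : Lnk) (h : ℤ) : Prop where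
  kh : S.Key h
  out : ∀ y, Anc S.a S.b h y → d x.t (S.w x) < d x.t y
  inn : ∀ t y, S.Key t → d x.t t ≤ d x.t (S.w x) → Anc S.a S.b t y → d x.t (S.w x) < d x.t y →
    Anc S.a S.b t h ∧ Anc S.a S.b h y ∧ z t = z h

theorem PG.hole (H : Hier S.L S.R S.a S.b d z) {x : Lnk} (p : PG S d z x) :
    ∃ h, HL S d z x h := by
  have s := (H.d0 _ _ p.kt.1 p.kt.2 p.kt.1 p.kt.2).2 rfl
  obtain ⟨h, h1, h2, h3, h4⟩ := H.hole _ _ x.t (S.e x) p.kt.1 p.kt.2 p.kw.1 p.kw.2 p.ntw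
    (mem_ball.2 ⟨p.kt.1, p.kt.2, by omega⟩) p.te p.kb
  exact ⟨h, ⟨h1, h2⟩, h3, fun t y kt a b c => h4 t y (mem_ball.2 ⟨kt.1, kt.2, a⟩) b c⟩

theorem d_eq (H : Hier S.L S.R S.a S.b d z) {u v w : ℤ} (ku : S.Key u) (kv : S.Key v)
    (kw : S.Key w) (h : d u v < d u w ∨ d u v < d v w) : d u w = d v w := by
  have := H.d1 _ _ _ ku.1 ku.2 kv.1 kv.2 kw.1 kw.2
  have := H.d1 _ _ _ kv.1 kv.2 ku.1 ku.2 kw.1 kw.2
  have := H.sym _ _ ku.1 ku.2 kv.1 kv.2
  omega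

theorem anc_of_cl (H : Hier S.L S.R S.a S.b d z) {u v : ℤ} (ku : S.Key u) (kv : S.Key v)
    (e : z u = z v) (c : S.a u - S.b u ≤ S.a v - S.b v) : Anc S.a S.b u v := by
  rcases ku.total kv (H.z1 u ku.1 ku.2) (e ▸ H.z1 v kv.1 kv.2) with h | h
  · exact h
  · have := kv.sub h
    have := kv.pl
    unfold Anc
    omega

theorem HL.self (H : Hier S.L S.R S.a S.b d z) {x : Lnk} (p : PG S d z x) {h : ℤ}
    (q : HL S d z x h) : z x.t = z h ∧ Anc S.a S.b h (S.e x) ∧ Anc S.a S.b (S.w x) h ∧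
      S.w x ≤ S.a h ∧ Anc S.a S.b h (z h) := by
  have s := (H.d0 _ _ p.kt.1 p.kt.2 p.kt.1 p.kt.2).2 rfl
  have a := q.inn x.t (S.e x) p.kt (by omega) p.te p.kb
  have b := q.inn (S.w x) (S.e x) p.kw le_rfl p.we p.kb
  refine ⟨a.2.2, a.2.1, b.1, ?_, H.z1 h q.kh.1 q.kh.2⟩
  have c := p.kw.out b.1 (fun e => by have := q.out h q.kh.refl; rw [← e] at this; omega)
  have := a.2.1
  have := p.o
  unfold Anc at *
  omega

/-- a later time of the upper half of the window is above the winner top -/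
theorem HL.time (H : Hier S.L S.R S.a S.b d z) {x : Lnk} (p : PG S d z x) {h s : ℤ}
    (q : HL S d z x h) (ks : S.Key s) (e : z x.t = z s) (ts : Anc S.a S.b x.t s) (ne : x.t ≠ s)
    (lt : d x.t s < d x.t (S.w x)) : Anc S.a S.b s (S.w x) ∧ s ≠ S.w x ∧ Anc S.a S.b s h ∧
      s ≠ h ∧ ∀ c, S.Aff s c → c ≤ x.lo ∨ x.hi ≤ c := by
  obtain ⟨a1, a2, a3, a4, a5⟩ := q.self H p
  have b := q.inn s (z h) ks lt.le (by rw [← a1, e]; exact H.z1 s ks.1 ks.2) (q.out _ a5)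
  have n : s ≠ S.w x := fun e => by rw [e] at lt; omega
  have c : Anc S.a S.b s (S.w x) := by
    rcases ks.total p.kw b.1 a3 with c | c
    · exact c
    · have := (H.d3 _ _ _ p.kt.1 p.kt.2 p.tw c).1
      omega
  refine ⟨c, n, b.1, fun e => by have := q.out h q.kh.refl; rw [← e] at this; omega,
    fun v hv => ?_⟩
  by_contra k
  exact p.lk.noaff ts ne c n (by omega) (by omega) hv

theorem sw_z (H : Hier S.L S.R S.a S.b d z) {x y : Lnk} (p : PG S d z x) (r : PG S d z y) {h : ℤ}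
    (q : HL S d z x h) (k : d x.t (S.w x) = d y.t (S.w y)) (lt : d x.t y.t < d x.t (S.w x)) :
    z x.t = z y.t ∧ Anc S.a S.b h (S.e y) ∧ d x.t (S.e y) = d y.t (S.e y) := by
  have kb := r.kb
  have e := d_eq H p.kt r.kt r.ke (Or.inr (by omega))
  have a := q.inn y.t (S.e y) r.kt lt.le r.te (by omega)
  exact ⟨(q.self H p).1.trans a.2.2.symm, a.2.1, e⟩

theorem sw_lt (H : Hier S.L S.R S.a S.b d z) {x y : Lnk} (p : PG S d z x) (r : PG S d z y) {h : ℤ}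
    (q : HL S d z x h) (k : d x.t (S.w x) = d y.t (S.w y)) (lt : d x.t y.t < d x.t (S.w x))
    (c : S.a x.t - S.b x.t < S.a y.t - S.b y.t) :
    Anc S.a S.b x.t y.t ∧ x.t ≠ y.t ∧ Anc S.a S.b y.t h ∧ y.t ≠ h ∧ x.hi ≤ y.m := by
  obtain ⟨a1, a2, a3⟩ := sw_z H p r q k lt
  have b := anc_of_cl H p.kt r.kt a1 c.le
  have n : x.t ≠ y.t := fun e => by rw [e] at c; omega
  obtain ⟨c1, c2, c3, c4, c5⟩ := q.time H p r.kt a1 b n lt
  refine ⟨b, n, c3, c4, ?_⟩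
  have := c5 y.m r.lk.basic.2.2.2.2.2.2.2.1
  have := (q.self H p).2.2.2.1
  have := q.kh.sub a2
  have := p.o
  have := r.o
  omega

/-- the abstract system of the rising left type P-links -/
noncomputable def mk' (H : Hier S.L S.R S.a S.b d z) {A : ℤ → Finset ℤ} (hA : S.Items A)
    (Z : Finset Lnk) (hZ : ∀ x ∈ Z, PG S d z x ∧ S.e x ≤ z x.t) : TVP.PS Lnk where
  V := Ioo S.L S.R
  d := d
  z := z
  cl := fun u => S.a u - S.b u
  X := Z
  t := fun x => x.t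
  e := S.e
  g := S.g
  k := fun x => d x.t (S.w x)
  A := A
  d0 := fun u hu => by
    rw [mem_Ioo] at hu
    exact (H.d0 _ _ hu.1 hu.2 hu.1 hu.2).2 rfl
  sym := fun u hu v hv => by
    rw [mem_Ioo] at hu hv
    exact H.sym _ _ hu.1 hu.2 hv.1 hv.2
  d1 := fun u hu v hv w hw => by
    rw [mem_Ioo] at hu hv hw
    exact H.d1 _ _ _ hu.1 hu.2 hv.1 hv.2 hw.1 hw.2
  d2 := fun u hu v hv w hw => by
    rw [mem_Ioo] at hu hv hw
    exact H.d2 _ _ _ hu.1 hu.2 hv.1 hv.2 hw.1 hw.2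
  d4 := fun u hu r => by
    rw [mem_Ioo] at hu
    exact H.d4 u r hu.1 hu.2
  d5 := fun u hu v hv => by
    rw [mem_Ioo] at hu hv
    exact H.d5 u v hu.1 hu.2 hv.1 hv.2
  inj := fun u hu v hv e c => by
    rw [mem_Ioo] at hu hv
    exact Key.antisymm hu (anc_of_cl H hu hv e c.le) (anc_of_cl H hv hu e.symm c.ge)
  mono := fun u hu v hv w hw e1 e2 c1 c2 => by
    rw [mem_Ioo] at hu hv hw
    exact H.d3 _ _ _ hu.1 hu.2 (anc_of_cl H hu hv e1 c1) (anc_of_cl H hv hw e2 c2)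
  tV := fun x hx => mem_Ioo.2 (hZ x hx).1.kt
  eV := fun x hx => mem_Ioo.2 (hZ x hx).1.ke
  kpos := fun x hx => (hZ x hx).1.pos
  real := fun x hx => ⟨_, mem_Ioo.2 (hZ x hx).1.kw, rfl⟩
  kb := fun x hx => (hZ x hx).1.kb
  w1 := fun x hx y hy k lt => by
    obtain ⟨h, q⟩ := (hZ x hx).1.hole H
    exact (sw_z H (hZ x hx).1 (hZ y hy).1 q k lt).1
  w3 := fun x hx y hy k lt c => by
    obtain ⟨p, -⟩ := hZ x hx
    obtain ⟨r, r'⟩ := hZ y hy
    obtain ⟨h, q⟩ := p.hole H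
    obtain ⟨a1, a2, a3⟩ := sw_z H p r q k lt
    obtain ⟨b1, b2, b3, b4, b5⟩ := sw_lt H p r q k lt c
    have := p.o
    have := r.o
    have := r.kb
    have s := (H.d0 _ _ p.kt.1 p.kt.2 p.kt.1 p.kt.2).2 rfl
    have := (H.z3 x.t (S.e x) (S.e y) p.kt.1 p.kt.2 p.te (p.kt.trans b1 r.te) (by omega) p.nte
      (fun g => b2 (p.kt.antisymm b1 (g ▸ r.te)))).1 (by omega)
    exact ⟨by omega, by omega⟩
  w4 := fun x hx y hy e ne => by
    obtain ⟨p, p'⟩ := hZ x hx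
    obtain ⟨r, r'⟩ := hZ y hy
    have := p.o
    have := r.o
    rcases p.lk.disj r.lk e with c | c | c
    · exact absurd c ne
    · have := (H.z3 y.t (S.e x) (S.w y) r.kt.1 r.kt.2 (e ▸ p.te) r.tw (by omega) (e ▸ p.nte)
        r.ntw.symm).1 r.zw.le
      exact Or.inl (by rw [e]; exact this)
    · have := (H.z3 x.t (S.e y) (S.w x) p.kt.1 p.kt.2 (e ▸ r.te) p.tw (by omega) (e ▸ r.nte)
        p.ntw.symm).1 p.zw.le
      exact Or.inr (by rw [← e]; exact this)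
  ge := fun x hx y hy e => by
    obtain ⟨p, -⟩ := hZ x hx
    obtain ⟨r, -⟩ := hZ y hy
    have := p.o
    have := r.o
    exact p.ke.antisymm (by unfold Anc; omega) (by unfold Anc; omega)
  ts := fun u hu y hy h hh k lt c e c' lt' bb => by
    obtain ⟨p, p'⟩ := hZ u hu
    obtain ⟨r, r'⟩ := hZ y hy
    obtain ⟨s, s'⟩ := hZ h hh
    obtain ⟨G, q⟩ := p.hole H
    obtain ⟨a1, a2, a3⟩ := sw_z H p r q k lt
    obtain ⟨b1, b2, b3, b4, b5⟩ := sw_lt H p r q k lt c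
    obtain ⟨f1, f2, f3, f4, f5⟩ := q.self H p
    have hu' := anc_of_cl H s.kt p.kt e c'
    have hy' := s.kt.trans hu' b1
    have n : h.t ≠ y.t := fun e => by rw [e] at c'; omega
    have rk := r.kb
    have e1 := d_eq H s.kt p.kt r.ke (Or.inr (by omega))
    have lt2 : S.e y < S.e h := by
      by_contra g
      have := (H.z3 h.t (S.e h) (S.e y) s.kt.1 s.kt.2 s.te (s.kt.trans hy' r.te) (by omega) s.nte
        (fun g => n (s.kt.antisymm hy' (g ▸ r.te)))).1 (by omega)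
      omega
    have g1 : Anc S.a S.b G (S.e h) := by unfold Anc at *; omega
    have g2 := q.kh.sub g1
    have g3 := r.kt.sub b3
    have g4 := r.kt.out b3 b4
    have po := p.o
    have ro := r.o
    have so := s.o
    obtain ⟨-, -, j1, -, -, -, -, j2, j3⟩ := r.lk.basic
    obtain ⟨τ, t1, t2⟩ := ts hA p.kt s.kt b1 b2 hy' n j2 j3 j1 p.lk.basic.2.2.2.2.2.2.2.2
      s.lk.basic.2.2.2.2.2.2.2.2 (by rw [← r.it]; omega) (by rw [← r.it]; omega)
      (by unfold Anc at f2; omega) (by omega) (by unfold Anc at f2; omega)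
    have t3 : Anc S.a S.b h.t τ ∧ Anc S.a S.b τ u.t := by
      rcases t2 with t2 | t2
      · exact ⟨s.kt.trans hu' t2.1, (p.kt.of_anc t2.1).trans t2.2 hu'⟩
      · exact t2
    have kτ := s.kt.of_anc t3.1
    have v1 := (H.d3 _ _ _ s.kt.1 s.kt.2 t3.1 t3.2).2
    have v2 := H.sym _ _ kτ.1 kτ.2 p.kt.1 p.kt.2
    have v3 := q.inn τ (S.e u) kτ (by omega) (kτ.trans t3.2 p.te) p.kb
    have v4 := s.kt.sub t3.1
    have v5 := kτ.sub t3.2
    exact ⟨τ, mem_Ioo.2 kτ, v3.2.2.trans f1.symm, by omega, by omega, by rw [r.it]; exact t1⟩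
  ln := fun x hx h hh e c lt k => by
    obtain ⟨p, p'⟩ := hZ x hx
    obtain ⟨s, s'⟩ := hZ h hh
    obtain ⟨G, q⟩ := p.hole H
    have b := anc_of_cl H p.kt s.kt e c.le
    have n : x.t ≠ h.t := fun e => by rw [e] at c; omega
    obtain ⟨c1, c2, c3, c4, c5⟩ := q.time H p s.kt e b n lt
    have pk := p.kb
    have e1 := d_eq H p.kt s.kt p.kw (Or.inl lt)
    have e2 := d_eq H p.kt s.kt p.ke (Or.inl (by omega))
    have po := p.o
    have so := s.o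
    have pz := p.zw
    have sz := s.zw
    have lt2 : S.w x < S.w h := by
      by_contra g
      have := (H.z3 h.t (S.w h) (S.w x) s.kt.1 s.kt.2 s.tw c1 (by omega) s.ntw.symm c2.symm).1
        (by omega)
      omega
    rcases c5 h.lo s.lk.basic.2.2.2.2.2.2.1 with g | g
    · have := (H.d3 _ _ (S.w x) s.kt.1 s.kt.2 s.tw (by unfold Anc; omega)).1
      omega
    · have := (H.z3 h.t (S.e x) (S.w h) s.kt.1 s.kt.2 (s.kt.trans c1 p.we) s.tw (by omega)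
        (fun g => c2 (s.kt.antisymm c1 (g ▸ p.we))) s.ntw.symm).1 (by omega)
      omega

theorem pf_holds : St_PF := by
  intro S d z H Z hZ
  refine card_le_card_of_injOn (fun x => x.t) (fun x hx => ?_) (fun x hx y hy e => ?_)
  · exact mem_coe.2 (mem_Ioo.2 (hZ x hx).1.1.1)
  · obtain ⟨a1, a2, a3⟩ := hZ x hx
    obtain ⟨b1, b2, b3⟩ := hZ y hy
    have p := pg H a1 a2
    have r := pg H b1 b2
    have := p.o
    have := r.o
    have := p.zw
    have := r.zw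
    simp only at e
    rcases p.lk.disj r.lk e with c | c | c
    · exact c
    · rw [e] at *; omega
    · rw [e] at *; omega

theorem pl_holds : St_PL := by
  intro R
  obtain ⟨C, hC⟩ := p_bound R
  refine ⟨C + R, fun S d z A H hA Z hZ => ?_⟩
  have e := card_filter_add_card_filter_not (s := Z) (fun x => S.e x ≤ z x.t)
  have h1 := hC Lnk (mk' H hA (Z.filter (fun x => S.e x ≤ z x.t)) fun x hx =>
    ⟨pg H (hZ x (mem_filter.1 hx).1).1 (hZ x (mem_filter.1 hx).1).2, (mem_filter.1 hx).2⟩)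
  have h2 := pf_holds S d z H (Z.filter (fun x => ¬ S.e x ≤ z x.t)) fun x hx =>
    ⟨(hZ x (mem_filter.1 hx).1).1, (hZ x (mem_filter.1 hx).1).2, not_le.1 (mem_filter.1 hx).2⟩
  change R * (Z.filter (fun x => S.e x ≤ z x.t)).card ≤ C * nn S + AA S A at h1
  have := Nat.mul_le_mul_left R h2
  rw [← e, mul_add, add_mul]
  omega

end Pool.Agent.Lib.TVP
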