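import Mathlib

set_option autoImplicit false
set_option linter.unusedVariables false

namespace Pool.Agent.Lib.TVP

open Finset Classical

theorem sum_geo (c : ℕ → ℕ) (B : ℕ) (h : ∀ k, c k * 2 ^ (k / 40) ≤ B) (K : ℕ) :
    ∑ k ∈ range K, c k ≤ 80 * B := by
  have key : ∀ J, 2 ^ J * ∑ k ∈ range (40 * J), c k + 80 * B ≤ 80 * B * 2 ^ J := by
    intro J
    induction J with
    | zero => simp
    | succ J ih =>
      have e : 40 * (J + 1) = 40 * J + 40 := by ring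
      rw [e, sum_range_add]
      have b : 2 ^ J * ∑ i ∈ range 40, c (40 * J + i) ≤ 40 * B := by
        rw [mul_sum]
        refine (sum_le_card_nsmul _ _ B fun i hi => ?_).trans (by simp)
        have := h (40 * J + i)
        have e2 : (40 * J + i) / 40 = J := by have := mem_range.1 hi; omega
        rw [e2] at this
        linarith
      rw [pow_succ]
      nlinarith
  have h1 : ∑ k ∈ range K, c k ≤ ∑ k ∈ range (40 * K), c k :=
    sum_le_sum_of_subset (range_subset_range.2 (by omega))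
  have h2 := key K
  have h3 : 0 < 2 ^ K := by positivity
  have h4 : 2 ^ K * ∑ k ∈ range (40 * K), c k ≤ 2 ^ K * (80 * B) := by nlinarith
  exact h1.trans (Nat.le_of_mul_le_mul_left h4 h3)

theorem sum_cls {α : Type} (Y : Finset α) (κ : α → ℕ) (w : ℕ → ℕ) (B : ℕ)
    (h : ∀ k, w k * (Y.filter (fun y => κ y = k)).card * 2 ^ (k / 40) ≤ B) :
    ∑ y ∈ Y, w (κ y) ≤ 80 * B := by
  have hm : ∀ y ∈ Y, κ y ∈ range (Y.sup κ + 1) := fun y hy =>
    mem_range.2 (Nat.lt_succ_of_le (le_sup (f := κ) hy))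
  rw [← sum_fiberwise_of_maps_to hm]
  refine le_trans (le_of_eq (sum_congr rfl fun k _ => ?_))
    (sum_geo (fun k => w k * (Y.filter (fun y => κ y = k)).card) B h _)
  rw [sum_congr rfl (g := fun _ => w k) (fun y hy => by rw [(mem_filter.1 hy).2])]
  simp [mul_comm]

theorem last_le {α : Type} (Y : Finset α) (f : α → ℤ)
    (hf : ∀ x ∈ Y, ∀ y ∈ Y, f x = f y → x = y) (D : ℕ) :
    (Y.filter (fun x => (Y.filter (fun y => f x < f y)).card < D)).card ≤ D := by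
  have key : ∀ x ∈ Y, ∀ y ∈ Y, f x < f y →
      (Y.filter (fun u => f y < f u)).card < (Y.filter (fun u => f x < f u)).card := by
    intro x hx y hy hxy
    refine card_lt_card ⟨fun u hu => ?_, fun hs => ?_⟩
    · simp only [mem_filter] at hu ⊢
      exact ⟨hu.1, by omega⟩
    · have := mem_filter.1 (hs (mem_filter.2 ⟨hy, hxy⟩))
      omega
  refine (card_le_card_of_injOn (t := range D)
    (fun x => (Y.filter (fun y => f x < f y)).card) (fun x hx => ?_) ?_).trans (by simp)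
  · simp only [coe_filter, Set.mem_ofPred_eq] at hx
    simpa using hx.2
  · intro x hx y hy e
    simp only [coe_filter, Set.mem_ofPred_eq] at hx hy
    simp only at e
    rcases lt_trichotomy (f x) (f y) with c | c | c
    · have := key x hx.1 y hy.1 c; omega
    · exact hf x hx.1 y hy.1 c
    · have := key y hy.1 x hx.1 c; omega

theorem charge {α β : Type} (Y : Finset α) (F : α → Finset β) (U : Finset β) (D : ℕ)
    (hU : ∀ x ∈ Y, F x ⊆ U) (hD : ∀ x ∈ Y, D ≤ (F x).card)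
    (hd : ∀ x ∈ Y, ∀ y ∈ Y, ∀ p, p ∈ F x → p ∈ F y → x = y) : D * Y.card ≤ U.card := by
  have h1 : (Y.biUnion F).card = ∑ x ∈ Y, (F x).card := by
    refine card_biUnion fun x hx y hy ne => ?_
    exact disjoint_left.2 fun p p1 p2 => ne (hd x hx y hy p p1 p2)
  have h2 : (Y.biUnion F).card ≤ U.card := card_le_card (biUnion_subset.2 hU)
  have h3 : Y.card • D ≤ ∑ x ∈ Y, (F x).card := card_nsmul_le_sum _ _ _ hD
  simp only [smul_eq_mul] at h3
  linarith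

/-- abstract system of P-links: times `V` with an ultrametric `d`, paths `z` and clock `cl`;
a link `x` has a time `t x`, a class `k x`, a loser key `e x` and a loser gap `g x` -/
structure PS (ι : Type) where
  V : Finset ℤ
  d : ℤ → ℤ → ℕ
  z : ℤ → ℤ
  cl : ℤ → ℤ
  X : Finset ι
  t : ι → ℤ
  e : ι → ℤ
  g : ι → ℤ
  k : ι → ℕ
  A : ℤ → Finset ℤ
  d0 : ∀ u ∈ V, d u u = 0
  sym : ∀ u ∈ V, ∀ v ∈ V, d u v = d v u
  d1 : ∀ u ∈ V, ∀ v ∈ V, ∀ w ∈ V, d u w ≤ max (d u v) (d v w)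
  d2 : ∀ u ∈ V, ∀ v ∈ V, ∀ w ∈ V, d u v = d u w → 0 < d u v → d v w < d u v
  d4 : ∀ u ∈ V, ∀ r, (V.filter (fun v => d u v ≤ r)).card ≤ 2 ^ r
  d5 : ∀ u ∈ V, ∀ v ∈ V, 2 ^ (d u v / 5) ≤ 4 * (V.filter (fun w => d u w ≤ d u v)).card
  inj : ∀ u ∈ V, ∀ v ∈ V, z u = z v → cl u = cl v → u = v
  mono : ∀ u ∈ V, ∀ v ∈ V, ∀ w ∈ V, z u = z v → z v = z w → cl u ≤ cl v → cl v ≤ cl w →
    d u v ≤ d u w ∧ d v w ≤ d u w
  tV : ∀ x ∈ X, t x ∈ V
  eV : ∀ x ∈ X, e x ∈ V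
  kpos : ∀ x ∈ X, 0 < k x
  real : ∀ x ∈ X, ∃ w ∈ V, d (t x) w = k x
  kb : ∀ x ∈ X, k x < d (t x) (e x)
  w1 : ∀ x ∈ X, ∀ y ∈ X, k x = k y → d (t x) (t y) < k x → z (t x) = z (t y)
  w3 : ∀ x ∈ X, ∀ y ∈ X, k x = k y → d (t x) (t y) < k x → cl (t x) < cl (t y) →
    d (t x) (e x) ≤ d (t y) (e y) ∧ g x ≠ g y
  w4 : ∀ x ∈ X, ∀ y ∈ X, t x = t y → x ≠ y → d (t x) (e x) ≤ k y ∨ d (t y) (e y) ≤ k x
  ge : ∀ x ∈ X, ∀ y ∈ X, g x = g y → e x = e y
  ts : ∀ u ∈ X, ∀ y ∈ X, ∀ h ∈ X, k u = k y → d (t u) (t y) < k u → cl (t u) < cl (t y) →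
    z (t h) = z (t u) → cl (t h) ≤ cl (t u) → d (t h) (t u) < k u →
    d (t y) (e y) < d (t h) (e h) →
    ∃ s ∈ V, z s = z (t u) ∧ cl (t h) ≤ cl s ∧ cl s ≤ cl (t u) ∧ g y ∈ A s
  ln : ∀ x ∈ X, ∀ h ∈ X, z (t x) = z (t h) → cl (t x) < cl (t h) → d (t x) (t h) < k x →
    k x < k h → d (t x) (e x) ≤ k h

namespace PS

variable {ι : Type} (S : PS ι)

def n : ℕ := S.V.card
def AA : ℕ := ∑ s ∈ S.V, (S.A s).card
def bb (x : ι) : ℕ := S.d (S.t x) (S.e x)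
def Sw (x y : ι) : Prop := S.k x = S.k y ∧ S.d (S.t x) (S.t y) < S.k x
def Lt (x y : ι) : Prop := S.Sw x y ∧ S.cl (S.t x) < S.cl (S.t y)

theorem items_card : (S.V.sigma S.A).card = S.AA := card_sigma _ _

theorem big {u v : ℤ} (hu : u ∈ S.V) (hv : v ∈ S.V) (h : 0 < S.d u v) :
    2 ^ (S.d u v / 5) ≤ 4 * (S.V.filter (fun w => S.d u w ≤ S.d u v)).card := S.d5 u hu v hv

theorem cw {α : Type} (Y : Finset α) (τ : α → ℤ) (r M : ℕ) (hr : 0 < r)
    (hτ : ∀ y ∈ Y, τ y ∈ S.V ∧ ∃ w ∈ S.V, S.d (τ y) w = r)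
    (hM : ∀ y ∈ Y, (Y.filter (fun y' => S.d (τ y) (τ y') < r)).card ≤ M) :
    Y.card * 2 ^ (r / 5) ≤ 8 * M * S.n := by
  have h := card_mul_le_card_mul (s := Y) (t := S.V) (fun y v => S.d (τ y) v ≤ r)
    (m := (2 ^ (r / 5) + 3) / 4) (n := 2 * M) (fun y hy => ?_) (fun v hv => ?_)
  · unfold n
    have : 2 ^ (r / 5) ≤ 4 * ((2 ^ (r / 5) + 3) / 4) := by omega
    nlinarith
  · obtain ⟨h1, w, hw, e⟩ := hτ y hy
    have := S.big h1 hw (by omega)
    rw [e] at this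
    unfold bipartiteAbove
    beta_reduce
    omega
  · unfold bipartiteBelow
    set Z := Y.filter (fun y => S.d (τ y) v ≤ r) with hZ
    rcases Z.eq_empty_or_nonempty with he | ⟨y1, hy1⟩
    · simp [he]
    have a1 := mem_filter.1 hy1
    set Z2 := Z.filter (fun y => ¬ S.d (τ y1) (τ y) < r) with hZ2
    have b1 : (Z.filter (fun y => S.d (τ y1) (τ y) < r)).card ≤ M := by
      refine le_trans (card_le_card fun y hy => ?_) (hM y1 a1.1)
      simp only [hZ, mem_filter] at hy ⊢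
      exact ⟨hy.1.1, hy.2⟩
    have f : ∀ y ∈ Z2, y ∈ Y ∧ S.d (τ y1) (τ y) = r := by
      intro y hy
      simp only [hZ2, hZ, mem_filter] at hy
      have := S.d1 _ (hτ y1 a1.1).1 v hv _ (hτ y hy.1.1).1
      have := S.sym v hv _ (hτ y hy.1.1).1
      exact ⟨hy.1.1, by omega⟩
    have b2 : Z2.card ≤ M := by
      rcases Z2.eq_empty_or_nonempty with he | ⟨y2, hy2⟩
      · simp [he]
      refine le_trans (card_le_card fun y hy => ?_) (hM y2 (f y2 hy2).1)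
      have := S.d2 _ (hτ y1 a1.1).1 _ (hτ y2 (f y2 hy2).1).1 _ (hτ y (f y hy).1).1
        (by rw [(f y2 hy2).2, (f y hy).2]) (by rw [(f y2 hy2).2]; exact hr)
      rw [(f y2 hy2).2] at this
      exact mem_filter.2 ⟨(f y hy).1, this⟩
    have := card_filter_add_card_filter_not (s := Z) (fun y => S.d (τ y1) (τ y) < r)
    rw [← hZ2] at this
    omega

theorem cws {α : Type} (Y : Finset α) (τ : α → ℤ) (κ : α → ℕ) (w M : ℕ → ℕ) (c : ℕ)
    (hτ : ∀ y ∈ Y, 0 < κ y ∧ τ y ∈ S.V ∧ ∃ v ∈ S.V, S.d (τ y) v = κ y)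
    (hM : ∀ y ∈ Y,
      (Y.filter (fun y' => κ y' = κ y ∧ S.d (τ y) (τ y') < κ y)).card ≤ M (κ y))
    (hc : ∀ k, w k * M k ≤ c * 2 ^ (7 * (k / 40))) : ∑ y ∈ Y, w (κ y) ≤ 640 * c * S.n := by
  refine (sum_cls Y κ w (8 * c * S.n) fun k => ?_).trans (le_of_eq (by ring))
  set Z := Y.filter (fun y => κ y = k) with hZ
  rcases Z.eq_empty_or_nonempty with he | ⟨y0, hy0⟩
  · simp [he]
  have k0 : 0 < k := by
    have := mem_filter.1 hy0
    have := (hτ y0 this.1).1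
    omega
  have h1 := S.cw Z τ k (M k) k0 (fun y hy => ?_) (fun y hy => ?_)
  · have h2 := hc k
    have h3 : 2 ^ (7 * (k / 40)) * 2 ^ (k / 40) ≤ 2 ^ (k / 5) := by
      rw [← pow_add]
      exact Nat.pow_le_pow_right (by omega) (by omega)
    have h4 : 0 < 2 ^ (k / 5) := by positivity
    refine Nat.le_of_mul_le_mul_left ?_ h4
    calc 2 ^ (k / 5) * (w k * Z.card * 2 ^ (k / 40))
        = w k * 2 ^ (k / 40) * (Z.card * 2 ^ (k / 5)) := by ring
      _ ≤ w k * 2 ^ (k / 40) * (8 * M k * S.n) := Nat.mul_le_mul_left _ h1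
      _ = (w k * M k) * 2 ^ (k / 40) * (8 * S.n) := by ring
      _ ≤ (c * 2 ^ (7 * (k / 40))) * 2 ^ (k / 40) * (8 * S.n) := by gcongr
      _ = (2 ^ (7 * (k / 40)) * 2 ^ (k / 40)) * (8 * c * S.n) := by ring
      _ ≤ 2 ^ (k / 5) * (8 * c * S.n) := Nat.mul_le_mul_right _ h3
  · have a := mem_filter.1 hy
    have := hτ y a.1
    rw [a.2] at this
    exact this.2
  · have a := mem_filter.1 hy
    have := hM y a.1
    rw [a.2] at this
    refine le_trans (card_le_card fun u hu => ?_) this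
    simp only [hZ, mem_filter] at hu ⊢
    exact ⟨hu.1.1, hu.1.2, hu.2⟩

variable {S}

theorem Sw.rfl' {x : ι} (hx : x ∈ S.X) : S.Sw x x :=
  ⟨rfl, by rw [S.d0 _ (S.tV x hx)]; exact S.kpos x hx⟩

theorem Sw.symm' {x y : ι} (hx : x ∈ S.X) (hy : y ∈ S.X) (h : S.Sw x y) : S.Sw y x :=
  ⟨h.1.symm, by rw [S.sym _ (S.tV y hy) _ (S.tV x hx), ← h.1]; exact h.2⟩

theorem Sw.trans' {x y u : ι} (hx : x ∈ S.X) (hy : y ∈ S.X) (hu : u ∈ S.X) (h : S.Sw x y)
    (h' : S.Sw y u) : S.Sw x u := by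
  have := S.d1 _ (S.tV x hx) _ (S.tV y hy) _ (S.tV u hu)
  obtain ⟨a, b⟩ := h
  obtain ⟨c, d⟩ := h'
  exact ⟨a.trans c, by omega⟩

theorem same_cls {x y : ι} (hx : x ∈ S.X) (hy : y ∈ S.X) (h : S.t x = S.t y)
    (hk : S.k x = S.k y) : x = y := by
  by_contra c
  have := S.w4 x hx y hy h c
  have := S.kb x hx
  have := S.kb y hy
  omega

theorem Sw.z {x y : ι} (hx : x ∈ S.X) (hy : y ∈ S.X) (h : S.Sw x y) :
    S.z (S.t x) = S.z (S.t y) := S.w1 x hx y hy h.1 h.2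

theorem Sw.eq {x y : ι} (hx : x ∈ S.X) (hy : y ∈ S.X) (h : S.Sw x y)
    (c : S.cl (S.t x) = S.cl (S.t y)) : x = y :=
  same_cls hx hy (S.inj _ (S.tV x hx) _ (S.tV y hy) (h.z hx hy) c) h.1

theorem Lt.bb {x y : ι} (hx : x ∈ S.X) (hy : y ∈ S.X) (h : S.Lt x y) : S.bb x ≤ S.bb y :=
  (S.w3 x hx y hy h.1.1 h.1.2 h.2).1

theorem Sw.g {x y : ι} (hx : x ∈ S.X) (hy : y ∈ S.X) (h : S.Sw x y) (e : S.g x = S.g y) :
    x = y := by
  rcases lt_trichotomy (S.cl (S.t x)) (S.cl (S.t y)) with c | c | c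
  · exact absurd e (S.w3 x hx y hy h.1 h.2 c).2
  · exact h.eq hx hy c
  · have h' := h.symm' hx hy
    exact absurd e.symm (S.w3 y hy x hx h'.1 h'.2 c).2

theorem kbb {x : ι} (hx : x ∈ S.X) : S.k x < S.bb x := S.kb x hx

/-- the child class seen from another time of the window -/
theorem Sw.bb_eq {x y : ι} (hx : x ∈ S.X) (hy : y ∈ S.X) (h : S.Sw x y) :
    S.d (S.t x) (S.e y) = S.bb y := by
  have a := S.d1 _ (S.tV x hx) _ (S.tV y hy) _ (S.eV y hy)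
  have b := S.d1 _ (S.tV y hy) _ (S.tV x hx) _ (S.eV y hy)
  have c := S.sym _ (S.tV y hy) _ (S.tV x hx)
  have d := S.kb y hy
  obtain ⟨h1, h2⟩ := h
  unfold PS.bb
  omega

end PS

end Pool.Agent.Lib.TVP
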