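import Pool.Agent.Lib.TVP.Core1

set_option autoImplicit false
set_option linter.unusedVariables false

namespace Pool.Agent.Lib.TVP

open Finset Classical

namespace PS

variable {ι : Type} (S : PS ι)

noncomputable def run (x : ι) : Finset ι := S.X.filter (fun y => S.Lt x y ∧ S.bb y = S.bb x)
noncomputable def NR (D : ℕ) : Finset ι := S.X.filter (fun x => D ≤ (S.run x).card)
def rise (x : ι) : Prop := x ∈ S.X ∧ ∀ y ∈ S.X, S.Lt y x → S.bb y ≠ S.bb x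
noncomputable def RS : Finset ι := S.X.filter S.rise
noncomputable def Lr (x : ι) : Finset ι := S.X.filter (fun y => S.rise y ∧ S.Lt x y)
noncomputable def I (x : ι) : Finset ℤ := S.V.filter (fun s => S.z s = S.z (S.t x) ∧
  S.cl (S.t x) < S.cl s ∧ ∀ y ∈ S.Lr x, S.cl s ≤ S.cl (S.t y))
def nice (R : ℕ) (x : ι) : Prop := S.rise x ∧ (S.Lr x).Nonempty ∧
  (S.I x).card ≤ 4 ^ (S.k x / 40) ∧ ∀ h ∈ S.X, S.t h ∈ S.I x →
    ((S.Lr x).filter (fun y => S.bb y < S.k h)).card ≤ R * 4 ^ (S.k x / 40)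
noncomputable def bad (R : ℕ) : Finset ι := S.X.filter (fun x => S.rise x ∧ ¬ S.nice R x)
noncomputable def NN (R : ℕ) : ℕ := ∑ x ∈ S.bad R, 2 ^ (S.k x / 40 + 1)

theorem nr_le (D : ℕ) : D * (S.NR D).card ≤ D * S.n + S.AA := by
  have e := card_filter_add_card_filter_not (s := S.NR D)
    (fun x => ∃ h ∈ S.X, S.t h = S.t x ∧ S.bb x ≤ S.k h)
  have h1 : ((S.NR D).filter
      (fun x => ¬ ∃ h ∈ S.X, S.t h = S.t x ∧ S.bb x ≤ S.k h)).card ≤ S.n := by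
    refine card_le_card_of_injOn S.t (fun x hx => ?_) (fun x hx y hy c => ?_)
    · simp only [NR, coe_filter, mem_filter, Set.mem_ofPred_eq] at hx
      exact S.tV x hx.1.1
    · simp only [NR, coe_filter, mem_filter, Set.mem_ofPred_eq] at hx hy
      by_contra ne
      rcases S.w4 x hx.1.1 y hy.1.1 c ne with a | a
      · exact hx.2 ⟨y, hy.1.1, c.symm, a⟩
      · exact hy.2 ⟨x, hx.1.1, c, a⟩
  have h2 := charge ((S.NR D).filter (fun x => ∃ h ∈ S.X, S.t h = S.t x ∧ S.bb x ≤ S.k h))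
    (fun x => (S.run x).image (fun y => (⟨S.t x, S.g y⟩ : Σ _ : ℤ, ℤ))) (S.V.sigma S.A) D
    (fun x hx p hp => ?_) (fun x hx => ?_) (fun x hx x' hx' p hp hp' => ?_)
  · rw [S.items_card] at h2
    rw [← e, mul_add]
    have := Nat.mul_le_mul_left D h1
    omega
  · simp only [NR, mem_filter] at hx
    obtain ⟨⟨hx, -⟩, h, hh, th, bh⟩ := hx
    obtain ⟨y, hy, rfl⟩ := mem_image.1 hp
    simp only [run, mem_filter] at hy
    have kh := kbb hh
    obtain ⟨s, hs, s1, s2, s3, s4⟩ := S.ts x hx y hy.1 h hh hy.2.1.1.1 hy.2.1.1.2 hy.2.1.2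
      (by rw [th]) (by rw [th]) (by rw [th, S.d0 _ (S.tV x hx)]; exact S.kpos x hx)
      (by have := hy.2.2; unfold bb at *; omega)
    have : s = S.t x := S.inj s hs _ (S.tV x hx) s1 (by rw [th] at s2; omega)
    subst this
    exact mem_sigma.2 ⟨hs, s4⟩
  · simp only [NR, mem_filter] at hx
    rw [card_image_of_injOn]
    · exact hx.1.2
    · intro y hy y' hy' c
      simp only [run, coe_filter, Set.mem_ofPred_eq] at hy hy'
      simp only [Sigma.mk.injEq, heq_eq_eq, true_and] at c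
      exact ((hy.2.1.1.symm' hx.1.1 hy.1).trans' hy.1 hx.1.1 hy'.1 hy'.2.1.1).g hy.1 hy'.1 c
  · simp only [NR, mem_filter] at hx hx'
    obtain ⟨y, hy, rfl⟩ := mem_image.1 hp
    obtain ⟨y', hy', c⟩ := mem_image.1 hp'
    simp only [run, mem_filter] at hy hy'
    simp only [Sigma.mk.injEq, heq_eq_eq] at c
    have a := hy.2.1.1.bb_eq hx.1.1 hy.1
    have b := hy'.2.1.1.bb_eq hx'.1.1 hy'.1
    rw [S.ge y' hy'.1 y hy.1 c.2, c.1] at b
    by_contra ne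
    have := S.w4 x hx.1.1 x' hx'.1.1 c.1.symm ne
    have := kbb hx.1.1
    have := kbb hx'.1.1
    have := hy.2.2
    have := hy'.2.2
    unfold bb at *
    omega

variable {S}

theorem Lt.trans_sw {x y u : ι} (hx : x ∈ S.X) (hy : y ∈ S.X) (hu : u ∈ S.X) (h : S.Sw x y)
    (h' : S.Sw x u) (c : S.cl (S.t y) < S.cl (S.t u)) : S.Lt y u :=
  ⟨(h.symm' hx hy).trans' hy hx hu h', c⟩

theorem run_le {x0 : ι} (h0 : x0 ∈ S.X) (β D : ℕ) :
    (S.X.filter (fun x => S.Sw x0 x ∧ S.bb x = β ∧ (S.run x).card < D)).card ≤ D := by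
  refine le_trans (card_le_card fun x hx => ?_)
    (last_le (S.X.filter (fun x => S.Sw x0 x ∧ S.bb x = β)) (fun x => S.cl (S.t x))
      (fun x hx y hy c => ?_) D)
  · simp only [mem_filter] at hx ⊢
    refine ⟨⟨hx.1, hx.2.1, hx.2.2.1⟩, lt_of_le_of_lt (card_le_card fun y hy => ?_) hx.2.2.2⟩
    simp only [run, mem_filter] at hy ⊢
    exact ⟨hy.1.1, Lt.trans_sw h0 hx.1 hy.1.1 hx.2.1 hy.1.2.1 hy.2, by rw [hy.1.2.2, hx.2.2.1]⟩
  · simp only [mem_filter] at hx hy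
    exact ((hx.2.1.symm' h0 hx.1).trans' hx.1 h0 hy.1 hy.2.1).eq hx.1 hy.1 c

theorem exists_rise {x : ι} (hx : x ∈ S.X) : ∃ r, S.rise r ∧ S.Sw r x ∧ S.bb r = S.bb x ∧
    S.cl (S.t r) ≤ S.cl (S.t x) := by
  obtain ⟨r, hr, hm⟩ := exists_min_image (S.X.filter (fun y => S.Sw y x ∧ S.bb y = S.bb x))
    (fun y => S.cl (S.t y)) ⟨x, mem_filter.2 ⟨hx, Sw.rfl' hx, rfl⟩⟩
  obtain ⟨r1, r2, r3⟩ := mem_filter.1 hr
  refine ⟨r, ⟨r1, fun y hy l c => ?_⟩, r2, r3, hm x (mem_filter.2 ⟨hx, Sw.rfl' hx, rfl⟩)⟩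
  have := hm y (mem_filter.2 ⟨hy, l.1.trans' hy r1 hx r2, c.trans r3⟩)
  have := l.2
  omega

theorem rise_eq {x y : ι} (hx : S.rise x) (hy : S.rise y) (h : S.Sw x y) (e : S.bb x = S.bb y) :
    x = y := by
  rcases lt_trichotomy (S.cl (S.t x)) (S.cl (S.t y)) with c | c | c
  · exact absurd e (hy.2 x hx.1 ⟨h, c⟩)
  · exact h.eq hx.1 hy.1 c
  · exact absurd e.symm (hx.2 y hy.1 ⟨h.symm' hx.1 hy.1, c⟩)

theorem I_d {x : ι} (hx : x ∈ S.X) (hn : (S.Lr x).Nonempty) {s : ℤ} (hs : s ∈ S.I x) :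
    S.d (S.t x) s < S.k x := by
  obtain ⟨y, hy⟩ := hn
  obtain ⟨s1, s2, s3, s4⟩ := mem_filter.1 hs
  obtain ⟨y1, y2, y3⟩ := mem_filter.1 hy
  have := (S.mono _ (S.tV x hx) s s1 _ (S.tV y y1) s2.symm (s2.trans (y3.1.z hx y1)) s3.le
    (s4 y hy)).1
  have := y3.1.2
  omega

theorem I_sw {x y : ι} (hx : x ∈ S.X) (hy : y ∈ S.X) (hn : (S.Lr x).Nonempty)
    (hm : (S.Lr y).Nonempty) (k : S.k x = S.k y) {s : ℤ} (hs : s ∈ S.I x) (hs' : s ∈ S.I y) :
    S.Sw x y := by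
  have a := I_d hx hn hs
  have b := I_d hy hm hs'
  have s1 := (mem_filter.1 hs).1
  have := S.d1 _ (S.tV x hx) s s1 _ (S.tV y hy)
  have := S.sym s s1 _ (S.tV y hy)
  exact ⟨k, by omega⟩

theorem I_disj {x y : ι} (hx : S.rise x) (hy : S.rise y) (hn : (S.Lr x).Nonempty)
    (hm : (S.Lr y).Nonempty) (k : S.k x = S.k y) {s : ℤ} (hs : s ∈ S.I x) (hs' : s ∈ S.I y) :
    x = y := by
  have w := I_sw hx.1 hy.1 hn hm k hs hs'
  obtain ⟨s1, s2, s3, s4⟩ := mem_filter.1 hs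
  obtain ⟨-, r2, r3, r4⟩ := mem_filter.1 hs'
  rcases lt_trichotomy (S.cl (S.t x)) (S.cl (S.t y)) with c | c | c
  · have := s4 y (mem_filter.2 ⟨hy.1, hy, w, c⟩)
    omega
  · exact w.eq hx.1 hy.1 c
  · have := r4 x (mem_filter.2 ⟨hx.1, hx, w.symm' hx.1 hy.1, c⟩)
    omega

variable (S)

theorem x_le (D : ℕ) : S.X.card ≤ (S.NR D).card + D * S.RS.card := by
  have h1 : S.X ⊆ S.NR D ∪ S.RS.biUnion (fun r => S.X.filter
      (fun x => S.Sw r x ∧ S.bb x = S.bb r ∧ (S.run x).card < D)) := by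
    intro x hx
    by_cases c : D ≤ (S.run x).card
    · exact mem_union_left _ (mem_filter.2 ⟨hx, c⟩)
    · obtain ⟨r, r1, r2, r3, r4⟩ := exists_rise hx
      exact mem_union_right _ (mem_biUnion.2 ⟨r, mem_filter.2 ⟨r1.1, r1⟩,
        mem_filter.2 ⟨hx, r2, r3.symm, by omega⟩⟩)
  refine (card_le_card h1).trans ((card_union_le _ _).trans (Nat.add_le_add_left ?_ _))
  rw [mul_comm]
  exact card_biUnion_le_card_mul _ _ _ fun r hr => run_le (mem_filter.1 hr).1 _ _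

theorem real' {x : ι} (hx : x ∈ S.X) :
    0 < S.k x ∧ S.t x ∈ S.V ∧ ∃ v ∈ S.V, S.d (S.t x) v = S.k x :=
  ⟨S.kpos x hx, S.tV x hx, S.real x hx⟩

theorem nn_a : ∑ x ∈ S.RS.filter (fun x => ¬ (S.Lr x).Nonempty), 2 ^ (S.k x / 40 + 1) ≤
    1280 * S.n := by
  refine (S.cws _ S.t S.k (fun k => 2 ^ (k / 40 + 1)) (fun _ => 1) 2 (fun y hy => ?_)
    (fun y hy => ?_) (fun k => ?_)).trans (le_of_eq (by ring))
  · exact S.real' (mem_filter.1 (mem_filter.1 hy).1).1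
  · refine card_le_one.2 fun a ha b hb => ?_
    simp only [RS, mem_filter] at hy ha hb
    have wa : S.Sw y a := ⟨ha.2.1.symm, ha.2.2⟩
    have wb : S.Sw y b := ⟨hb.2.1.symm, hb.2.2⟩
    rcases lt_trichotomy (S.cl (S.t a)) (S.cl (S.t b)) with c | c | c
    · exact absurd ⟨b, mem_filter.2 ⟨hb.1.1.1, hb.1.1.2,
        Lt.trans_sw hy.1.1 ha.1.1.1 hb.1.1.1 wa wb c⟩⟩ ha.1.2
    · exact ((wa.symm' hy.1.1 ha.1.1.1).trans' ha.1.1.1 hy.1.1 hb.1.1.1 wb).eq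
        ha.1.1.1 hb.1.1.1 c
    · exact absurd ⟨a, mem_filter.2 ⟨ha.1.1.1, ha.1.1.2,
        Lt.trans_sw hy.1.1 hb.1.1.1 ha.1.1.1 wb wa c⟩⟩ hb.1.2
  · have : 2 ^ (k / 40) ≤ 2 ^ (7 * (k / 40)) := Nat.pow_le_pow_right (by omega) (by omega)
    rw [pow_succ]
    omega

theorem four_pow (j : ℕ) : 2 ^ (j + 1) * 2 ^ j = 2 * 4 ^ j := by
  rw [show (4 : ℕ) = 2 * 2 by norm_num, mul_pow, pow_succ]; ring

theorem nn_b : ∑ x ∈ S.RS.filter (fun x => (S.Lr x).Nonempty ∧ 4 ^ (S.k x / 40) < (S.I x).card),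
    2 ^ (S.k x / 40 + 1) ≤ 160 * S.n := by
  refine (sum_cls _ S.k (fun k => 2 ^ (k / 40 + 1)) (2 * S.n) fun k => ?_).trans
    (le_of_eq (by ring))
  have h := charge ((S.RS.filter
    (fun x => (S.Lr x).Nonempty ∧ 4 ^ (S.k x / 40) < (S.I x).card)).filter (fun y => S.k y = k))
    S.I S.V (4 ^ (k / 40)) (fun x hx => filter_subset _ _) (fun x hx => ?_)
    (fun x hx y hy p hp hp' => ?_)
  · have := four_pow (k / 40)
    unfold n
    nlinarith
  · simp only [mem_filter] at hx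
    rw [← hx.2]
    exact hx.1.2.2.le
  · simp only [RS, mem_filter] at hx hy
    exact I_disj hx.1.1.2 hy.1.1.2 hx.1.2.1 hy.1.2.1 (by omega) hp hp'

theorem nn_c (R : ℕ) : R * ∑ x ∈ S.RS.filter (fun x => (S.Lr x).Nonempty ∧ ∃ h ∈ S.X,
    S.t h ∈ S.I x ∧ R * 4 ^ (S.k x / 40) < ((S.Lr x).filter (fun y => S.bb y < S.k h)).card),
    2 ^ (S.k x / 40 + 1) ≤ 160 * S.AA := by
  rw [mul_sum]
  refine (sum_cls _ S.k (fun k => R * 2 ^ (k / 40 + 1)) (2 * S.AA) fun k => ?_).trans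
    (le_of_eq (by ring))
  have h := charge ((S.RS.filter (fun x => (S.Lr x).Nonempty ∧ ∃ h ∈ S.X,
    S.t h ∈ S.I x ∧ R * 4 ^ (S.k x / 40) <
      ((S.Lr x).filter (fun y => S.bb y < S.k h)).card)).filter (fun y => S.k y = k))
    (fun x => (S.I x).sigma S.A) (S.V.sigma S.A) (R * 4 ^ (k / 40))
    (fun x hx => sigma_mono (filter_subset _ _) fun _ => Subset.refl _) (fun x hx => ?_)
    (fun x hx y hy p hp hp' => ?_)
  · have := four_pow (k / 40)
    rw [S.items_card] at h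
    generalize Finset.card _ = c at h ⊢
    calc _ = (2 ^ (k / 40 + 1) * 2 ^ (k / 40)) * R * c := by ring
      _ = 2 * (R * 4 ^ (k / 40) * c) := by rw [this]; ring
      _ ≤ 2 * S.AA := Nat.mul_le_mul_left _ h
  · simp only [RS, mem_filter] at hx
    obtain ⟨⟨⟨hx, rx⟩, hn, h, hh, hI, hc⟩, rfl⟩ := hx
    obtain ⟨u, hu, hm⟩ := exists_min_image (S.Lr x) (fun y => S.cl (S.t y)) hn
    obtain ⟨u1, u2, u3⟩ := mem_filter.1 hu
    obtain ⟨s1, s2, s3, s4⟩ := mem_filter.1 hI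
    set Y := ((S.Lr x).filter (fun y => S.bb y < S.k h)).erase u with hY
    have c1 : R * 4 ^ (S.k x / 40) ≤ Y.card := by
      have := pred_card_le_card_erase (s := (S.Lr x).filter (fun y => S.bb y < S.k h)) (a := u)
      rw [← hY] at this
      omega
    have c2 : (Y.image S.g).card = Y.card := by
      refine card_image_of_injOn fun y hy y' hy' c => ?_
      simp only [hY, Lr, coe_erase, coe_filter, Set.mem_sdiff, Set.mem_ofPred_eq,
        mem_filter] at hy hy'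
      exact ((hy.1.1.2.2.1.symm' hx hy.1.1.1).trans' hy.1.1.1 hx hy'.1.1.1
        hy'.1.1.2.2.1).g hy.1.1.1 hy'.1.1.1 c
    have c3 : Y.image S.g ⊆ ((S.I x).sigma S.A).image (fun p => p.2) := by
      intro v hv
      obtain ⟨y, hy, rfl⟩ := mem_image.1 hv
      obtain ⟨ne, hy⟩ := mem_erase.1 hy
      obtain ⟨hy, lt⟩ := mem_filter.1 hy
      obtain ⟨y1, y2, y3⟩ := mem_filter.1 hy
      have w : S.Sw u y := (u3.1.symm' hx u1).trans' u1 hx y1 y3.1
      have cl : S.cl (S.t u) < S.cl (S.t y) :=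
        lt_of_le_of_ne (hm y hy) fun c => ne (w.eq u1 y1 c).symm
      have zu := u3.1.z hx u1
      have m := (S.mono _ (S.tV x hx) _ s1 _ (S.tV u u1) s2.symm (s2.trans zu) s3.le (s4 u hu)).2
      have kh := kbb hh
      obtain ⟨s, hs, a1, a2, a3, a4⟩ := S.ts u u1 y y1 h hh w.1 w.2 cl (s2.trans zu) (s4 u hu)
        (by have := u3.1.1; have := u3.1.2; omega) (by unfold bb at *; omega)
      refine mem_image.2 ⟨⟨s, S.g y⟩, mem_sigma.2 ⟨mem_filter.2 ⟨hs, a1.trans zu.symm,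
        lt_of_lt_of_le s3 a2, fun y' hy' => a3.trans (hm y' hy')⟩, a4⟩, rfl⟩
    have c4 := (card_le_card c3).trans card_image_le
    omega
  · simp only [RS, mem_filter] at hx hy
    exact I_disj hx.1.1.2 hy.1.1.2 hx.1.2.1 hy.1.2.1 (by omega) (mem_sigma.1 hp).1
      (mem_sigma.1 hp').1

theorem sum_union_le' {α : Type} (A B : Finset α) (f : α → ℕ) :
    ∑ x ∈ A ∪ B, f x ≤ ∑ x ∈ A, f x + ∑ x ∈ B, f x := by
  have := sum_union_inter (s₁ := A) (s₂ := B) (f := f)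
  omega

theorem nn_le (R : ℕ) : R * S.NN R ≤ 1440 * R * S.n + 160 * S.AA := by
  have a := Nat.mul_le_mul_left R S.nn_a
  have b := Nat.mul_le_mul_left R S.nn_b
  have c := S.nn_c R
  have h : S.bad R ⊆ S.RS.filter (fun x => ¬ (S.Lr x).Nonempty) ∪
      (S.RS.filter (fun x => (S.Lr x).Nonempty ∧ 4 ^ (S.k x / 40) < (S.I x).card) ∪
      S.RS.filter (fun x => (S.Lr x).Nonempty ∧ ∃ h ∈ S.X, S.t h ∈ S.I x ∧
        R * 4 ^ (S.k x / 40) < ((S.Lr x).filter (fun y => S.bb y < S.k h)).card)) := by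
    intro x hx
    obtain ⟨x1, x2, x3⟩ := mem_filter.1 hx
    have hr : x ∈ S.RS := mem_filter.2 ⟨x1, x2⟩
    simp only [mem_union, mem_filter]
    by_contra q
    push Not at q
    have q1 := q.1 hr
    exact x3 ⟨x2, q1, q.2.1 hr q1, q.2.2 hr q1⟩
  have d := (sum_le_sum_of_subset (f := fun x => 2 ^ (S.k x / 40 + 1)) h).trans
    ((sum_union_le' _ _ _).trans (Nat.add_le_add_left (sum_union_le' _ _ _) _))
  have d' := Nat.mul_le_mul_left R d
  unfold NN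
  rw [mul_add, mul_add] at d'
  nlinarith

end PS

end Pool.Agent.Lib.TVP
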