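import Pool.Agent.Lib.TVP.Core2

set_option autoImplicit false
set_option linter.unusedVariables false

namespace Pool.Agent.Lib.TVP

open Finset Classical

theorem geo_two (j : ℕ) : ∑ r ∈ range (j + 1), 2 ^ r ≤ 2 ^ (j + 1) := by
  induction j with
  | zero => simp
  | succ j ih => rw [sum_range_succ, pow_succ 2 (j + 1)]; omega

theorem win_le (R k : ℕ) :
    (R * 4 ^ (k / 40) + 2) * 4 ^ (k / 40) ≤ (R + 2) * 2 ^ (4 * (k / 40)) := by
  have e : 2 ^ (4 * (k / 40)) = 4 ^ (k / 40) * 4 ^ (k / 40) := by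
    rw [pow_mul, ← mul_pow]; norm_num
  have : 1 ≤ 4 ^ (k / 40) := Nat.one_le_pow _ _ (by omega)
  rw [e]
  nlinarith

theorem lin_le (k : ℕ) : k ≤ 40 * 2 ^ (k / 40) := by
  have : k / 40 < 2 ^ (k / 40) := Nat.lt_two_pow_self
  omega

namespace PS

variable {ι : Type} {S : PS ι}

theorem nw (R r : ℕ) (Y : Finset ι)
    (hY : ∀ f ∈ Y, f ∈ S.X ∧ r < S.k f ∧ ∃ x, S.nice R x ∧ S.k x = r ∧ S.t f ∈ S.I x)
    (hw : ∀ f ∈ Y, ∀ f' ∈ Y, S.d (S.t f) (S.t f') < r)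
    (hi : ∀ f ∈ Y, ∀ f' ∈ Y, S.t f = S.t f' → f = f') {f1 : ι} (h1 : f1 ∈ Y)
    (hm : ∀ f ∈ Y, S.cl (S.t f1) ≤ S.cl (S.t f) ∧ S.k f ≤ S.k f1) :
    Y.card ≤ (R * 4 ^ (r / 40) + 2) * 4 ^ (r / 40) := by
  obtain ⟨f1X, -, x1, n1, k1, i1⟩ := hY f1 h1
  have x1X := n1.1.1
  set Q := S.X.filter (fun x => S.nice R x ∧ S.k x = r ∧ (x = x1 ∨ S.Lt x1 x) ∧
    S.bb x ≤ S.k f1) with hQ
  have q1 : Q.card ≤ R * 4 ^ (r / 40) + 2 := by
    have a : Q ⊆ insert x1 ((S.Lr x1).filter (fun y => S.bb y < S.k f1) ∪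
        (S.Lr x1).filter (fun y => S.bb y = S.k f1)) := by
      intro x hx
      obtain ⟨a1, a2, a3, a4, a5⟩ := mem_filter.1 hx
      rcases a4 with rfl | a4
      · exact mem_insert_self _ _
      · have : x ∈ S.Lr x1 := mem_filter.2 ⟨a1, a2.1, a4⟩
        simp only [mem_insert, mem_union, mem_filter, this, true_and]
        omega
    have b := n1.2.2.2 f1 f1X i1
    have c : ((S.Lr x1).filter (fun y => S.bb y = S.k f1)).card ≤ 1 := by
      refine card_le_one.2 fun a ha b hb => ?_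
      simp only [Lr, mem_filter] at ha hb
      exact rise_eq ha.1.2.1 hb.1.2.1
        ((ha.1.2.2.1.symm' x1X ha.1.1).trans' ha.1.1 x1X hb.1.1 hb.1.2.2.1) (by omega)
    have d := (card_le_card a).trans ((card_insert_le _ _).trans
      (Nat.add_le_add_right (card_union_le _ _) 1))
    rw [k1] at b
    omega
  have q2 : (Q.biUnion S.I).card ≤ Q.card * 4 ^ (r / 40) :=
    card_biUnion_le_card_mul _ _ _ fun x hx => by
      obtain ⟨a1, a2, a3, a4, a5⟩ := mem_filter.1 hx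
      rw [← a3]
      exact a2.2.2.1
  refine le_trans (card_le_card_of_injOn S.t (fun f hf => ?_) hi)
    (q2.trans (Nat.mul_le_mul_right _ q1))
  obtain ⟨fX, kf, x, n, k, i⟩ := hY f hf
  have xX := n.1.1
  have d1 := I_d x1X n1.2.1 i1
  have d2 := I_d xX n.2.1 i
  have d3 := hw f1 h1 f hf
  have w : S.Sw x1 x := by
    have := S.d1 _ (S.tV _ x1X) _ (S.tV _ f1X) _ (S.tV _ xX)
    have := S.d1 _ (S.tV _ f1X) _ (S.tV _ fX) _ (S.tV _ xX)
    have := S.sym _ (S.tV _ fX) _ (S.tV _ xX)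
    exact ⟨by omega, by omega⟩
  obtain ⟨s1, s2, s3, s4⟩ := mem_filter.1 i
  have b := S.ln x xX f fX s2.symm s3 d2 (by omega)
  refine mem_coe.2 (mem_biUnion.2 ⟨x, mem_filter.2 ⟨xX, n, k, ?_, ?_⟩, i⟩)
  · rcases lt_trichotomy (S.cl (S.t x1)) (S.cl (S.t x)) with c | c | c
    · exact Or.inr ⟨w, c⟩
    · exact Or.inl (w.eq x1X xX c).symm
    · have := s4 x1 (mem_filter.2 ⟨x1X, n1.1, w.symm' x1X xX, c⟩)
      have := (mem_filter.1 i1).2.2.1
      have := (hm f hf).1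
      omega
  · have := (hm f hf).2
    unfold bb
    omega

variable (S)

def good (R : ℕ) (f : ι) : Prop := S.rise f ∧ ∃ x, S.nice R x ∧ S.t f ∈ S.I x ∧
  40 * S.k x ≤ S.k f ∧ ∀ h ∈ S.X, S.t h = S.t f → S.bb h ≤ S.k f → S.k h ≤ S.k x
noncomputable def G (R : ℕ) : Finset ι := S.X.filter (S.good R)
noncomputable def kk (R : ℕ) (f : ι) : ℕ :=
  (S.X.filter (fun x => S.nice R x ∧ S.t f ∈ S.I x ∧ 40 * S.k x ≤ S.k f)).sup S.k
noncomputable def Ph (R : ℕ) (f : ι) : Finset ι :=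
  (S.G R).filter (fun f' => S.kk R f' = S.kk R f ∧ S.d (S.t f) (S.t f') < S.kk R f)
def Fc (R : ℕ) (f f1 : ι) : Prop :=
  f1 ∈ S.Ph R f ∧ ∀ f' ∈ S.Ph R f, S.cl (S.t f1) ≤ S.cl (S.t f')

variable {S}

theorem kk_ge {R : ℕ} {f x : ι} (n : S.nice R x) (i : S.t f ∈ S.I x) (k : 40 * S.k x ≤ S.k f) :
    S.k x ≤ S.kk R f := le_sup (f := S.k) (mem_filter.2 ⟨n.1.1, n, i, k⟩)

theorem kk_spec {R : ℕ} {f : ι} (h : f ∈ S.G R) : ∃ x, S.nice R x ∧ S.t f ∈ S.I x ∧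
    40 * S.k x ≤ S.k f ∧ S.k x = S.kk R f := by
  obtain ⟨-, -, x, n, i, k, -⟩ := mem_filter.1 h
  obtain ⟨y, hy, e⟩ := exists_mem_eq_sup
    (S.X.filter (fun x => S.nice R x ∧ S.t f ∈ S.I x ∧ 40 * S.k x ≤ S.k f))
    ⟨x, mem_filter.2 ⟨n.1.1, n, i, k⟩⟩ S.k
  obtain ⟨-, a, b, c⟩ := mem_filter.1 hy
  exact ⟨y, a, b, c, e.symm⟩

theorem kk_bd {R : ℕ} {f : ι} (h : f ∈ S.G R) : 0 < S.kk R f ∧ 40 * S.kk R f ≤ S.k f := by
  obtain ⟨x, n, i, k, e⟩ := kk_spec h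
  have := S.kpos x n.1.1
  omega

theorem kk_inj {R : ℕ} {f f' : ι} (h : f ∈ S.G R) (h' : f' ∈ S.G R) (t : S.t f = S.t f')
    (k : S.kk R f = S.kk R f') : f = f' := by
  by_contra ne
  have b := kk_bd h
  have b' := kk_bd h'
  obtain ⟨fX, -, x, n, i, kx, m⟩ := mem_filter.1 h
  obtain ⟨fX', -, x', n', i', kx', m'⟩ := mem_filter.1 h'
  have g := kk_ge n i kx
  have g' := kk_ge n' i' kx'
  rcases S.w4 f fX f' fX' t ne with a | a
  · have := m' f fX t a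
    omega
  · have := m f' fX' t.symm a
    omega

theorem ph_self {R : ℕ} {f : ι} (h : f ∈ S.G R) : f ∈ S.Ph R f :=
  mem_filter.2 ⟨h, rfl, by rw [S.d0 _ (S.tV f (mem_filter.1 h).1)]; exact (kk_bd h).1⟩

theorem ph_d {R : ℕ} {f a b : ι} (h : f ∈ S.G R) (ha : a ∈ S.Ph R f) (hb : b ∈ S.Ph R f) :
    S.d (S.t a) (S.t b) < S.kk R f := by
  obtain ⟨a1, a2, a3⟩ := mem_filter.1 ha
  obtain ⟨b1, b2, b3⟩ := mem_filter.1 hb
  have fV := S.tV f (mem_filter.1 h).1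
  have aV := S.tV a (mem_filter.1 a1).1
  have := S.d1 _ aV _ fV _ (S.tV b (mem_filter.1 b1).1)
  have := S.sym _ aV _ fV
  omega

theorem ph_z {R : ℕ} {f a : ι} (h : f ∈ S.G R) (ha : a ∈ S.Ph R f) :
    S.z (S.t a) = S.z (S.t f) := by
  obtain ⟨a1, a2, a3⟩ := mem_filter.1 ha
  obtain ⟨x, n, i, k, e⟩ := kk_spec h
  obtain ⟨y, n', i', k', e'⟩ := kk_spec a1
  have d1 := I_d n.1.1 n.2.1 i
  have d2 := I_d n'.1.1 n'.2.1 i'
  have fV := S.tV f (mem_filter.1 h).1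
  have aV := S.tV a (mem_filter.1 a1).1
  have xV := S.tV x n.1.1
  have yV := S.tV y n'.1.1
  have := S.d1 _ xV _ fV _ yV
  have := S.d1 _ fV _ aV _ yV
  have := S.sym _ aV _ yV
  have w := S.w1 x n.1.1 y n'.1.1 (by omega) (by omega)
  rw [(mem_filter.1 i).2.1, (mem_filter.1 i').2.1, w]

variable (S)

theorem ga_le (R : ℕ) : ((S.G R).filter (fun f => ∀ f1, S.Fc R f f1 → S.k f ≤ S.k f1)).card ≤
    640 * (R + 2) * S.n := by
  rw [card_eq_sum_ones]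
  refine S.cws _ S.t (S.kk R) (fun _ => 1) (fun r => (R * 4 ^ (r / 40) + 2) * 4 ^ (r / 40))
    (R + 2) (fun f hf => ?_) (fun f hf => ?_) (fun r => ?_)
  · have h := (mem_filter.1 hf).1
    obtain ⟨x, n, i, k, e⟩ := kk_spec h
    obtain ⟨w, hw, dw⟩ := S.real x n.1.1
    have d1 := I_d n.1.1 n.2.1 i
    have fV := S.tV f (mem_filter.1 h).1
    have xV := S.tV x n.1.1
    have := S.d1 _ xV _ fV _ hw
    have := S.d1 _ fV _ xV _ hw
    have := S.sym _ fV _ xV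
    exact ⟨(kk_bd h).1, fV, w, hw, by omega⟩
  · have h := (mem_filter.1 hf).1
    obtain ⟨f1, h1, hm⟩ := exists_min_image (S.Ph R f) (fun y => S.cl (S.t y)) ⟨f, ph_self h⟩
    refine le_trans (card_le_card fun y hy => ?_)
      (nw R (S.kk R f) ((S.Ph R f).filter (fun y => S.k y ≤ S.k f1)) (fun y hy => ?_)
        (fun a ha b hb => ph_d h (mem_filter.1 ha).1 (mem_filter.1 hb).1) (fun a ha b hb c => ?_)
        (f1 := f1) (mem_filter.2 ⟨h1, le_rfl⟩)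
        (fun y hy => ⟨hm y (mem_filter.1 hy).1, (mem_filter.1 hy).2⟩))
    · obtain ⟨a, a3, a4⟩ := mem_filter.1 hy
      obtain ⟨a1, a2⟩ := mem_filter.1 a
      have yp : y ∈ S.Ph R f := mem_filter.2 ⟨a1, a3, a4⟩
      refine mem_filter.2 ⟨yp, a2 f1 ⟨?_, fun u hu => hm u ?_⟩⟩
      · obtain ⟨b1, b2, b3⟩ := mem_filter.1 h1
        exact mem_filter.2 ⟨b1, by omega, by rw [a3]; exact ph_d h yp h1⟩
      · obtain ⟨b1, b2, b3⟩ := mem_filter.1 hu
        have := S.d1 _ (S.tV f (mem_filter.1 h).1) _ (S.tV y (mem_filter.1 a1).1) _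
          (S.tV u (mem_filter.1 b1).1)
        exact mem_filter.2 ⟨b1, by omega, by omega⟩
    · obtain ⟨b1, b2, b3⟩ := mem_filter.1 (mem_filter.1 hy).1
      obtain ⟨x, n, i, k, e⟩ := kk_spec b1
      have := kk_bd b1
      exact ⟨(mem_filter.1 b1).1, by omega, x, n, by omega, i⟩
    · obtain ⟨a1, a2, a3⟩ := mem_filter.1 (mem_filter.1 ha).1
      obtain ⟨b1, b2, b3⟩ := mem_filter.1 (mem_filter.1 hb).1
      exact kk_inj a1 b1 c (by omega)
  · have := win_le R r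
    have : (R + 2) * 2 ^ (4 * (r / 40)) ≤ (R + 2) * 2 ^ (7 * (r / 40)) :=
      Nat.mul_le_mul_left _ (Nat.pow_le_pow_right (by omega) (by omega))
    omega

theorem gb_le (R : ℕ) : ((S.G R).filter (fun f => ∃ x ∈ S.bad R, 40 * S.kk R f ≤ S.k x ∧
    S.d (S.t x) (S.t f) < S.kk R f)).card ≤ S.NN R := by
  have h : (S.G R).filter (fun f => ∃ x ∈ S.bad R, 40 * S.kk R f ≤ S.k x ∧
      S.d (S.t x) (S.t f) < S.kk R f) ⊆ (S.bad R).biUnion (fun x => (S.G R).filter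
        (fun f => 40 * S.kk R f ≤ S.k x ∧ S.d (S.t x) (S.t f) < S.kk R f)) := by
    intro f hf
    obtain ⟨a, x, b, c⟩ := mem_filter.1 hf
    exact mem_biUnion.2 ⟨x, b, mem_filter.2 ⟨a, c⟩⟩
  refine (card_le_card h).trans (card_biUnion_le.trans (sum_le_sum fun x hx => ?_))
  have xV := S.tV x (mem_filter.1 hx).1
  refine (card_le_card_of_injOn (t := (range (S.k x / 40 + 1)).sigma
    (fun r => S.V.filter (fun v => S.d (S.t x) v ≤ r)))
    (fun f => (⟨S.kk R f, S.t f⟩ : Σ _ : ℕ, ℤ)) (fun f hf => ?_) (fun a ha b hb c => ?_)).trans ?_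
  · obtain ⟨a, b, c⟩ := mem_filter.1 (mem_coe.1 hf)
    refine mem_coe.2 (mem_sigma.2 ⟨mem_range.2 ?_, mem_filter.2
      ⟨S.tV f (mem_filter.1 a).1, c.le⟩⟩)
    show S.kk R f < _
    omega
  · simp only [Sigma.mk.injEq, heq_eq_eq] at c
    exact kk_inj (mem_filter.1 (mem_coe.1 ha)).1 (mem_filter.1 (mem_coe.1 hb)).1 c.2 c.1
  · rw [card_sigma]
    exact (sum_le_sum fun r _ => S.d4 _ xV r).trans (geo_two _)

theorem gc_le (R : ℕ) : (S.X.filter (fun f => ∃ x, S.nice R x ∧ S.t f ∈ S.I x ∧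
    S.k x < S.k f ∧ S.k f < 40 * S.k x)).card ≤ 640 * (1600 * (R + 2)) * S.n := by
  set Y := (S.X ×ˢ S.X).filter (fun p : ι × ι => S.nice R p.1 ∧ S.t p.2 ∈ S.I p.1 ∧
    S.k p.1 < S.k p.2 ∧ S.k p.2 < 40 * S.k p.1) with hY
  have h1 : S.X.filter (fun f => ∃ x, S.nice R x ∧ S.t f ∈ S.I x ∧
      S.k x < S.k f ∧ S.k f < 40 * S.k x) ⊆ Y.image Prod.snd := by
    intro f hf
    obtain ⟨a, x, b⟩ := mem_filter.1 hf
    exact mem_image.2 ⟨(x, f), mem_filter.2 ⟨mem_product.2 ⟨b.1.1.1, a⟩, b⟩, rfl⟩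
  refine (card_le_card h1).trans (card_image_le.trans ?_)
  rw [card_eq_sum_ones]
  refine S.cws _ (fun p => S.t p.1) (fun p => S.k p.1) (fun _ => 1)
    (fun r => 40 * r * ((R * 4 ^ (r / 40) + 2) * 4 ^ (r / 40))) _ (fun p hp => ?_)
    (fun p hp => ?_) (fun r => ?_)
  · exact S.real' (mem_filter.1 hp).2.1.1.1
  · have pX := (mem_filter.1 hp).2.1.1.1
    set Z := S.X.filter (fun f => ∃ x, S.nice R x ∧ S.Sw p.1 x ∧ S.t f ∈ S.I x ∧
      S.k x < S.k f ∧ S.k f < 40 * S.k x) with hZ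
    have a : (Y.filter (fun q => S.k q.1 = S.k p.1 ∧
        S.d (S.t p.1) (S.t q.1) < S.k p.1)).card ≤ Z.card := by
      refine card_le_card_of_injOn Prod.snd (fun q hq => ?_) (fun q hq q' hq' c => ?_)
      · obtain ⟨b1, b2, b3⟩ := mem_filter.1 (mem_coe.1 hq)
        obtain ⟨b4, b5, b6⟩ := mem_filter.1 b1
        exact mem_coe.2 (mem_filter.2 ⟨(mem_product.1 b4).2, q.1, b5, ⟨b2.symm, b3⟩, b6⟩)
      · obtain ⟨b1, b2, b3⟩ := mem_filter.1 (mem_coe.1 hq)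
        obtain ⟨b4, b5, b6, -⟩ := mem_filter.1 b1
        obtain ⟨c1, c2, c3⟩ := mem_filter.1 (mem_coe.1 hq')
        obtain ⟨c4, c5, c6, -⟩ := mem_filter.1 c1
        exact Prod.ext (I_disj b5.1 c5.1 b5.2.1 c5.2.1 (by omega) b6 (by rw [c]; exact c6)) c
    have b : Z ⊆ (range (40 * S.k p.1)).biUnion (fun c => Z.filter (fun f => S.k f = c)) := by
      intro f hf
      obtain ⟨-, x, b1, b2, b3, b4, b5⟩ := mem_filter.1 hf
      exact mem_biUnion.2 ⟨S.k f, mem_range.2 (by rw [b2.1]; exact b5), mem_filter.2 ⟨hf, rfl⟩⟩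
    refine a.trans ((card_le_card b).trans ((card_biUnion_le_card_mul _ _
      ((R * 4 ^ (S.k p.1 / 40) + 2) * 4 ^ (S.k p.1 / 40)) fun c _ => ?_).trans (by simp)))
    rcases (Z.filter (fun f => S.k f = c)).eq_empty_or_nonempty with he | hne
    · simp [he]
    obtain ⟨f1, h1, hm⟩ := exists_min_image _ (fun y => S.cl (S.t y)) hne
    have dz : ∀ f ∈ Z, S.d (S.t p.1) (S.t f) < S.k p.1 := by
      intro f hf
      obtain ⟨fX, x, b1, b2, b3, b4, b5⟩ := mem_filter.1 hf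
      have := I_d b1.1.1 b1.2.1 b3
      have := S.d1 _ (S.tV _ pX) _ (S.tV x b1.1.1) _ (S.tV f fX)
      have := b2.1
      have := b2.2
      omega
    refine nw R _ _ (fun f hf => ?_) (fun a ha b hb => ?_) (fun a ha b hb e => ?_) h1
      (fun f hf => ⟨hm f hf, by rw [(mem_filter.1 hf).2, (mem_filter.1 h1).2]⟩)
    · obtain ⟨fX, x, b1, b2, b3, b4, b5⟩ := mem_filter.1 (mem_filter.1 hf).1
      exact ⟨fX, by rw [b2.1]; exact b4, x, b1, b2.1.symm, b3⟩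
    · have aZ := (mem_filter.1 ha).1
      have bZ := (mem_filter.1 hb).1
      have aV := S.tV a (mem_filter.1 aZ).1
      have := dz a aZ
      have := dz b bZ
      have := S.d1 _ aV _ (S.tV _ pX) _ (S.tV b (mem_filter.1 bZ).1)
      have := S.sym _ aV _ (S.tV _ pX)
      omega
    · exact same_cls (mem_filter.1 (mem_filter.1 ha).1).1 (mem_filter.1 (mem_filter.1 hb).1).1 e
        (by rw [(mem_filter.1 ha).2, (mem_filter.1 hb).2])
  · have a := win_le R r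
    have b := lin_le r
    have c : 2 ^ (r / 40) * 2 ^ (4 * (r / 40)) ≤ 2 ^ (7 * (r / 40)) := by
      rw [← pow_add]
      exact Nat.pow_le_pow_right (by omega) (by omega)
    calc 1 * (40 * r * ((R * 4 ^ (r / 40) + 2) * 4 ^ (r / 40)))
        ≤ 1 * (40 * (40 * 2 ^ (r / 40)) * ((R + 2) * 2 ^ (4 * (r / 40)))) := by gcongr
      _ = 1600 * (R + 2) * (2 ^ (r / 40) * 2 ^ (4 * (r / 40))) := by ring
      _ ≤ _ := Nat.mul_le_mul_left _ c

theorem g_le (R : ℕ) : (S.G R).card ≤ 640 * (1601 * (R + 2)) * S.n + S.NN R := by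
  have a := S.ga_le R
  have b := S.gb_le R
  have c := S.gc_le R
  have h : S.G R ⊆ (S.G R).filter (fun f => ∀ f1, S.Fc R f f1 → S.k f ≤ S.k f1) ∪
      ((S.G R).filter (fun f => ∃ x ∈ S.bad R, 40 * S.kk R f ≤ S.k x ∧
        S.d (S.t x) (S.t f) < S.kk R f) ∪
      S.X.filter (fun f => ∃ x, S.nice R x ∧ S.t f ∈ S.I x ∧
        S.k x < S.k f ∧ S.k f < 40 * S.k x)) := by
    intro f hf
    by_cases c1 : ∀ f1, S.Fc R f f1 → S.k f ≤ S.k f1
    · exact mem_union_left _ (mem_filter.2 ⟨hf, c1⟩)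
    refine mem_union_right _ ?_
    push Not at c1
    obtain ⟨f1, ⟨p1, p2⟩, lt⟩ := c1
    obtain ⟨g1, k1, d1⟩ := mem_filter.1 p1
    have fX := (mem_filter.1 hf).1
    obtain ⟨X1, r1, -⟩ := mem_filter.1 g1
    have z1 := ph_z hf p1
    have cl1 : S.cl (S.t f1) < S.cl (S.t f) := by
      refine lt_of_le_of_ne (p2 f (ph_self hf)) fun c => ?_
      have := kk_inj g1 hf (S.inj _ (S.tV _ X1) _ (S.tV _ fX) z1 c) k1
      rw [this] at lt
      omega
    obtain ⟨x, hx, hm⟩ := exists_max_image (S.X.filter (fun x => S.rise x ∧ S.Sw f1 x ∧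
      S.cl (S.t x) < S.cl (S.t f))) (fun y => S.cl (S.t y))
      ⟨f1, mem_filter.2 ⟨X1, r1, Sw.rfl' X1, cl1⟩⟩
    obtain ⟨xX, rx, wx, cx⟩ := mem_filter.1 hx
    have m1 := hm f1 (mem_filter.2 ⟨X1, r1, Sw.rfl' X1, cl1⟩)
    have zx := wx.z X1 xX
    have dx := (S.mono _ (S.tV _ X1) _ (S.tV _ xX) _ (S.tV _ fX) zx (zx.symm.trans z1) m1
      cx.le).2
    have sy := S.sym _ (S.tV _ X1) _ (S.tV _ fX)
    have b1 := kk_bd g1
    have kx := wx.1
    by_cases c2 : S.nice R x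
    · have i : S.t f ∈ S.I x := by
        refine mem_filter.2 ⟨S.tV _ fX, z1.symm.trans zx, cx, fun y hy => ?_⟩
        obtain ⟨yX, ry, ly⟩ := mem_filter.1 hy
        by_contra q
        have := hm y (mem_filter.2 ⟨yX, ry, wx.trans' X1 xX yX ly.1, by omega⟩)
        have := ly.2
        omega
      refine mem_union_right _ (mem_filter.2 ⟨fX, x, c2, i, by omega, ?_⟩)
      by_contra q
      have := kk_ge c2 i (by omega)
      omega
    · exact mem_union_left _ (mem_filter.2 ⟨hf, x, mem_filter.2 ⟨xX, rx, c2⟩, by omega, by omega⟩)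
  have d := (card_le_card h).trans ((card_union_le _ _).trans
    (Nat.add_le_add_left (card_union_le _ _) _))
  nlinarith

end PS

end Pool.Agent.Lib.TVP
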