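import Pool.Agent.Lib.TVP.Core3

set_option autoImplicit false
set_option linter.unusedVariables false

namespace Pool.Agent.Lib.TVP

open Finset Classical

namespace PS

variable {ι : Type} (S : PS ι)

def Prev (f g : ι) : Prop := g ∈ S.X ∧ S.t g = S.t f ∧ S.bb g ≤ S.k f ∧
  ∀ h ∈ S.X, S.t h = S.t f → S.bb h ≤ S.k f → S.k h ≤ S.k g

theorem prev_le (Z : Finset ι) :
    (S.X.filter (fun f => ∃ g ∈ Z, S.Prev f g)).card ≤ Z.card := by
  have h : S.X.filter (fun f => ∃ g ∈ Z, S.Prev f g) ⊆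
      Z.biUnion (fun g => S.X.filter (fun f => S.Prev f g)) := by
    intro f hf
    obtain ⟨a, g, b, c⟩ := mem_filter.1 hf
    exact mem_biUnion.2 ⟨g, b, mem_filter.2 ⟨a, c⟩⟩
  refine (card_le_card h).trans ((card_biUnion_le_card_mul _ _ 1 fun g _ => ?_).trans (by simp))
  refine card_le_one.2 fun a ha b hb => ?_
  obtain ⟨aX, a1, a2, a3, a4⟩ := mem_filter.1 ha
  obtain ⟨bX, -, b2, b3, b4⟩ := mem_filter.1 hb
  have := kbb a1
  by_contra ne
  rcases S.w4 a aX b bX (a2.symm.trans b2) ne with c | c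
  · have := b4 a aX (a2.symm.trans b2) c
    omega
  · have := a4 b bX (b2.symm.trans a2) c
    omega

theorem r1_le : (S.X.filter (fun f => ¬ ∃ g ∈ S.X, S.t g = S.t f ∧ S.bb g ≤ S.k f)).card ≤
    S.n := by
  refine card_le_card_of_injOn S.t (fun x hx => ?_) (fun x hx y hy c => ?_)
  · exact S.tV x (mem_filter.1 (mem_coe.1 hx)).1
  · obtain ⟨a1, a2⟩ := mem_filter.1 (mem_coe.1 hx)
    obtain ⟨b1, b2⟩ := mem_filter.1 (mem_coe.1 hy)
    by_contra ne
    rcases S.w4 x a1 y b1 c ne with a | a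
    · exact b2 ⟨x, a1, c, a⟩
    · exact a2 ⟨y, b1, c.symm, a⟩

theorem z2_le : (S.X.filter (fun g => ∀ y ∈ S.X, ¬ S.Lt y g)).card ≤ 640 * S.n := by
  rw [card_eq_sum_ones]
  refine (S.cws _ S.t S.k (fun _ => 1) (fun _ => 1) 1 (fun y hy => ?_)
    (fun y hy => ?_) (fun k => ?_)).trans (le_of_eq (by ring))
  · exact S.real' (mem_filter.1 hy).1
  · refine card_le_one.2 fun a ha b hb => ?_
    simp only [mem_filter] at hy ha hb
    have wa : S.Sw y a := ⟨ha.2.1.symm, ha.2.2⟩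
    have wb : S.Sw y b := ⟨hb.2.1.symm, hb.2.2⟩
    rcases lt_trichotomy (S.cl (S.t a)) (S.cl (S.t b)) with c | c | c
    · exact absurd (Lt.trans_sw hy.1 ha.1.1 hb.1.1 wa wb c) (hb.1.2 a ha.1.1)
    · exact ((wa.symm' hy.1 ha.1.1).trans' ha.1.1 hy.1 hb.1.1 wb).eq ha.1.1 hb.1.1 c
    · exact absurd (Lt.trans_sw hy.1 hb.1.1 ha.1.1 wb wa c) (ha.1.2 b hb.1.1)
  · have : 1 ≤ 2 ^ (7 * (k / 40)) := Nat.one_le_pow _ _ (by omega)
    omega

theorem z4_le (D : ℕ) : (S.X.filter (fun g => (S.run g).card < D ∧ S.bb g < 40 * S.k g)).card ≤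
    640 * (1600 * D) * S.n := by
  rw [card_eq_sum_ones]
  refine S.cws _ S.t S.k (fun _ => 1) (fun k => 40 * k * D) _ (fun y hy => ?_)
    (fun y hy => ?_) (fun k => ?_)
  · exact S.real' (mem_filter.1 hy).1
  · have yX := (mem_filter.1 hy).1
    have h : (S.X.filter (fun g => (S.run g).card < D ∧ S.bb g < 40 * S.k g)).filter
        (fun y' => S.k y' = S.k y ∧ S.d (S.t y) (S.t y') < S.k y) ⊆
        (range (40 * S.k y)).biUnion (fun β => S.X.filter
          (fun x => S.Sw y x ∧ S.bb x = β ∧ (S.run x).card < D)) := by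
      intro x hx
      simp only [mem_filter] at hx
      exact mem_biUnion.2 ⟨S.bb x, mem_range.2 (by omega),
        mem_filter.2 ⟨hx.1.1, ⟨hx.2.1.symm, hx.2.2⟩, rfl, hx.1.2.1⟩⟩
    exact (card_le_card h).trans ((card_biUnion_le_card_mul _ _ D
      fun β _ => run_le yX β D).trans (by simp))
  · have b := lin_le k
    have c : 2 ^ (k / 40) ≤ 2 ^ (7 * (k / 40)) := Nat.pow_le_pow_right (by omega) (by omega)
    calc 1 * (40 * k * D) ≤ 1 * (40 * (40 * 2 ^ (7 * (k / 40))) * D) := by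
          gcongr
          omega
      _ = _ := by ring

theorem z5_le (R D : ℕ) : (S.X.filter (fun g => (S.run g).card < D ∧ ∃ x ∈ S.bad R, S.Lt x g ∧
    ∀ y, S.rise y → S.Lt y g → S.cl (S.t y) ≤ S.cl (S.t x))).card ≤ (D + 1) * S.NN R := by
  have h : S.X.filter (fun g => (S.run g).card < D ∧ ∃ x ∈ S.bad R, S.Lt x g ∧
      ∀ y, S.rise y → S.Lt y g → S.cl (S.t y) ≤ S.cl (S.t x)) ⊆ (S.bad R).biUnion (fun x =>
      S.X.filter (fun g => S.Sw x g ∧ S.bb g = S.bb x ∧ (S.run g).card < D) ∪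
      S.X.filter (fun g => S.rise g ∧ S.Lt x g ∧
        ∀ y, S.rise y → S.Lt y g → S.cl (S.t y) ≤ S.cl (S.t x))) := by
    intro g hg
    obtain ⟨gX, a, x, b, c, d⟩ := mem_filter.1 hg
    refine mem_biUnion.2 ⟨x, b, ?_⟩
    have xX := (mem_filter.1 b).1
    obtain ⟨r, r1, r2, r3, r4⟩ := exists_rise gX
    rcases r4.eq_or_lt with e | e
    · have := r2.eq r1.1 gX e
      subst this
      exact mem_union_right _ (mem_filter.2 ⟨gX, r1, c, d⟩)
    · refine mem_union_left _ (mem_filter.2 ⟨gX, c.1, ?_, a⟩)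
      have w : S.Sw r x := r2.trans' r1.1 gX xX (c.1.symm' xX gX)
      have b1 := c.bb xX gX
      rcases (d r r1 ⟨r2, e⟩).eq_or_lt with q | q
      · rw [← w.eq r1.1 xX q, r3]
      · have := Lt.bb r1.1 xX ⟨w, q⟩
        omega
  have h2 : (S.bad R).card ≤ S.NN R := by
    rw [card_eq_sum_ones]
    exact sum_le_sum fun x _ => Nat.one_le_pow _ _ (by omega)
  refine (card_le_card h).trans ((card_biUnion_le_card_mul _ _ (D + 1) fun x hx => ?_).trans ?_)
  · have xX := (mem_filter.1 hx).1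
    refine (card_union_le _ _).trans (add_le_add (run_le xX _ _) (card_le_one.2 ?_))
    intro a ha b hb
    obtain ⟨aX, a1, a2, a3⟩ := mem_filter.1 ha
    obtain ⟨bX, b1, b2, b3⟩ := mem_filter.1 hb
    rcases lt_trichotomy (S.cl (S.t a)) (S.cl (S.t b)) with c | c | c
    · have := b3 a a1 (Lt.trans_sw xX aX bX a2.1 b2.1 c)
      have := a2.2
      omega
    · exact ((a2.1.symm' xX aX).trans' aX xX bX b2.1).eq aX bX c
    · have := a3 b b1 (Lt.trans_sw xX bX aX b2.1 a2.1 c)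
      have := b2.2
      omega
  · rw [mul_comm]
    exact Nat.mul_le_mul_left _ h2

theorem rs_le (R D : ℕ) : S.RS.card ≤ (641 + 640 * (1600 * D)) * S.n + (S.NR D).card +
    (D + 1) * S.NN R + (S.G R).card := by
  have a1 := S.r1_le
  have a2 := S.z2_le
  have a4 := S.z4_le D
  have a5 := S.z5_le R D
  set Z2 := S.X.filter (fun g => ∀ y ∈ S.X, ¬ S.Lt y g) with h2
  set Z4 := S.X.filter (fun g => (S.run g).card < D ∧ S.bb g < 40 * S.k g) with h4
  set Z5 := S.X.filter (fun g => (S.run g).card < D ∧ ∃ x ∈ S.bad R, S.Lt x g ∧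
    ∀ y, S.rise y → S.Lt y g → S.cl (S.t y) ≤ S.cl (S.t x)) with h5
  have b := S.prev_le (Z2 ∪ (S.NR D ∪ (Z4 ∪ Z5)))
  have b' : (Z2 ∪ (S.NR D ∪ (Z4 ∪ Z5))).card ≤ Z2.card + ((S.NR D).card + (Z4.card + Z5.card)) :=
    (card_union_le _ _).trans (Nat.add_le_add_left ((card_union_le _ _).trans
      (Nat.add_le_add_left (card_union_le _ _) _)) _)
  have h : S.RS ⊆ S.X.filter (fun f => ¬ ∃ g ∈ S.X, S.t g = S.t f ∧ S.bb g ≤ S.k f) ∪
      (S.X.filter (fun f => ∃ g ∈ Z2 ∪ (S.NR D ∪ (Z4 ∪ Z5)), S.Prev f g) ∪ S.G R) := by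
    intro f hf
    obtain ⟨fX, rf⟩ := mem_filter.1 hf
    by_cases c1 : ∃ g ∈ S.X, S.t g = S.t f ∧ S.bb g ≤ S.k f
    swap
    · exact mem_union_left _ (mem_filter.2 ⟨fX, c1⟩)
    refine mem_union_right _ ?_
    obtain ⟨g0, g1, g2⟩ := c1
    obtain ⟨g, hg, hm⟩ := exists_max_image (S.X.filter (fun g => S.t g = S.t f ∧ S.bb g ≤ S.k f))
      S.k ⟨g0, mem_filter.2 ⟨g1, g2⟩⟩
    obtain ⟨gX, tg, bg⟩ := mem_filter.1 hg
    have pv : S.Prev f g := ⟨gX, tg, bg, fun h a b c => hm h (mem_filter.2 ⟨a, b, c⟩)⟩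
    by_cases c2 : g ∈ Z2 ∪ (S.NR D ∪ (Z4 ∪ Z5))
    · exact mem_union_left _ (mem_filter.2 ⟨fX, g, c2, pv⟩)
    refine mem_union_right _ (mem_filter.2 ⟨fX, rf, ?_⟩)
    simp only [mem_union, not_or, h2, h4, h5, NR, mem_filter, gX, true_and] at c2
    obtain ⟨n2, n3, n4, n5⟩ := c2
    push Not at n2
    obtain ⟨y, yX, ly⟩ := n2
    obtain ⟨r, r1, r2, r3, r4⟩ := exists_rise yX
    obtain ⟨x, hx, hx'⟩ := exists_max_image (S.X.filter (fun x => S.rise x ∧ S.Lt x g))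
      (fun y => S.cl (S.t y)) ⟨r, mem_filter.2 ⟨r1.1, r1, r2.trans' r1.1 yX gX ly.1,
        lt_of_le_of_lt r4 ly.2⟩⟩
    obtain ⟨xX, rx, lx⟩ := mem_filter.1 hx
    have mx : ∀ y, S.rise y → S.Lt y g → S.cl (S.t y) ≤ S.cl (S.t x) :=
      fun y a b => hx' y (mem_filter.2 ⟨a.1, a, b⟩)
    have nx : S.nice R x := by
      by_contra q
      exact n5 ⟨by omega, x, mem_filter.2 ⟨xX, rx, q⟩, lx, mx⟩
    have kx := lx.1.1
    refine ⟨x, nx, ?_, by omega, fun h a b c => by rw [kx]; exact pv.2.2.2 h a b c⟩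
    rw [← tg]
    refine mem_filter.2 ⟨S.tV g gX, (lx.1.z xX gX).symm, lx.2, fun u hu => ?_⟩
    obtain ⟨uX, ru, lu⟩ := mem_filter.1 hu
    by_contra q
    have := mx u ru (Lt.trans_sw xX uX gX lu.1 lx.1 (by omega))
    have := lu.2
    omega
  have d := (card_le_card h).trans ((card_union_le _ _).trans
    (Nat.add_le_add_left (card_union_le _ _) _))
  nlinarith

end PS

/-- the number of P-links is linear, up to a small multiple of the number of items -/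
theorem p_bound (E : ℕ) : ∃ C : ℕ, ∀ (ι : Type) (S : PS ι),
    E * S.X.card ≤ C * S.V.card + ∑ s ∈ S.V, (S.A s).card := by
  obtain ⟨D1, h1⟩ : ∃ D1, D1 = 3 * E := ⟨_, rfl⟩
  obtain ⟨D2, h2⟩ : ∃ D2, D2 = D1 * D1 := ⟨_, rfl⟩
  obtain ⟨R, h3⟩ : ∃ R, R = 160 * (D2 * (D2 + 2)) := ⟨_, rfl⟩
  refine ⟨D1 + D2 * (641 + 640 * (1600 * D2)) + D2 + D2 * (640 * (1601 * (R + 2))) + 9 * R,
    fun ι S => ?_⟩
  have a := Nat.mul_le_mul_left D1 (S.x_le D1)
  have b := Nat.mul_le_mul_left D2 (S.rs_le R D2)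
  have c := Nat.mul_le_mul_left D2 (S.g_le R)
  have d := S.nr_le D1
  have e := S.nr_le D2
  have f := S.nn_le R
  have g : D2 * (D2 + 2) * S.NN R ≤ 9 * R * S.n + S.AA := by
    have : R * S.NN R = 160 * (D2 * (D2 + 2) * S.NN R) := by rw [h3]; ring
    have : 1440 * R * S.n = 160 * (9 * R * S.n) := by ring
    omega
  change E * S.X.card ≤ _ * S.n + S.AA
  have a' : D1 * ((S.NR D1).card + D1 * S.RS.card) = D1 * (S.NR D1).card + D2 * S.RS.card := by
    rw [h2]; ring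
  have x : D1 * S.X.card = 3 * (E * S.X.card) := by rw [h1]; ring
  have y : D2 * (D2 + 2) * S.NN R = D2 * ((D2 + 1) * S.NN R) + D2 * S.NN R := by ring
  have u : (D1 + D2 * (641 + 640 * (1600 * D2)) + D2 + D2 * (640 * (1601 * (R + 2))) + 9 * R) *
      S.n = D1 * S.n + D2 * ((641 + 640 * (1600 * D2)) * S.n) + D2 * S.n +
        D2 * (640 * (1601 * (R + 2)) * S.n) + 9 * R * S.n := by ring
  rw [u]
  simp only [mul_add D2] at b c
  omega

end Pool.Agent.Lib.TVP
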